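import Pool.Agent.H854.AS.Defs
import Pool.Graph.R_pool_sql_team_seeded_1acbe0a2.Y138.UC.Th

/-!
# The homology of a space with a flat map that is a bundle over an open subset
-/

set_option autoImplicit false

open CategoryTheory AlgebraicGeometry

universe u v w

namespace Pool.Agent.H854.AS

open Pool.Agent.Y138.UC

variable {k : Type u} [Field k] {F : Type v} [Field F] {G : Type w} [Group G]

theorem IsFlatDim.of_bun {E B : Sch k} {f : E ⟶ B} {r : ℕ} (h : IsBun f r) : IsFlatDim f r := by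
  refine ⟨E, 𝟙 E, f, h, ?_, ?_, Category.id_comp f⟩
  · change Flat (𝟙 E.left)
    infer_instance
  · change LocallyQuasiFinite (𝟙 E.left)
    infer_instance

theorem isBun_id (E : Sch k) : IsBun (𝟙 E) 0 := by
  have : IsIso (𝟙 E : E ⟶ E).left := by
    change IsIso (𝟙 E.left)
    infer_instance
  exact isAffineBundle_of_isIso _

theorem IsFlatDim.of_qf {E B : Sch k} {f : E ⟶ B} (h : Flat f.left)
    (h' : LocallyQuasiFinite f.left) : IsFlatDim f 0 :=
  ⟨B, f, 𝟙 B, isBun_id B, h, h', Category.comp_id f⟩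

theorem IsFlatDim.of_open {E B : Sch k} {f : E ⟶ B} (h : IsOp f) : IsFlatDim f 0 := by
  have : IsOpenImmersion f.left := h
  exact .of_qf inferInstance inferInstance

variable {P : Grp.{u, v} k F}

/-- A space `Y` with a flat map to `S` which is a bundle (in two steps) over the complement `B` of
`Z`; the inverse image `C` of `Z` contains an open subset `C0` which is a bundle over `Z`, with
complement `C'`. -/
structure Config {Z S B C Y V C' C0 B' : Sch k} (i : Z ⟶ S) (j : B ⟶ S) (iY : C ⟶ Y) (jY : V ⟶ Y)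
    (π : Y ⟶ S) (πC : C ⟶ Z) (πV : V ⟶ B) (i' : C' ⟶ C) (j0 : C0 ⟶ C) (b0 : C0 ⟶ Z) (a : V ⟶ B')
    (b : B' ⟶ B) (d r s : ℕ) : Prop where
  hS : IsComplement i j
  hY : IsComplement iY jY
  hπ : IsFlatDim π d
  hπC : IsFlatDim πC d
  hπV : IsFlatDim πV d
  cC : IsCart iY πC π i
  cV : IsCart jY πV π j
  hC : IsComplement i' j0
  hb0 : IsBun b0 d
  e0 : j0 ≫ πC = b0
  ha : IsBun a s
  hb : IsBun b r
  hab : a ≫ b = πV
  hd : d = r + s
  vZ : IsVariety Z
  vS : IsVariety S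
  vB : IsVariety B
  vC : IsVariety C
  vY : IsVariety Y
  vV : IsVariety V
  vC' : IsVariety C'
  vC0 : IsVariety C0
  vB' : IsVariety B'

section

variable {Z S B C Y V C' C0 B' : Sch k} {i : Z ⟶ S} {j : B ⟶ S} {iY : C ⟶ Y} {jY : V ⟶ Y}
    {π : Y ⟶ S} {πC : C ⟶ Z} {πV : V ⟶ B} {i' : C' ⟶ C} {j0 : C0 ⟶ C} {b0 : C0 ⟶ Z} {a : V ⟶ B'}
    {b : B' ⟶ B} {d r s : ℕ} (c : Config i j iY jY π πC πV i' j0 b0 a b d r s)
include c

theorem Config.fj0 : IsFlatDim j0 0 := .of_open c.hC.2.1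

theorem Config.fjY : IsFlatDim jY 0 := .of_open c.hY.2.1

theorem Config.fj : IsFlatDim j 0 := .of_open c.hS.2.1

/-- The composition of the pull-backs from `Z` to `C` and from `C` to `C0`. -/
theorem Config.pull_C0 (hP : P.IsGood) (n n' : ℤ) (e : n' = n + d) (x : P.M Z n) :
    P.pull j0 0 c.fj0 n' n' (by simp) (P.pull πC d c.hπC n n' e x) =
      P.pull b0 d (.of_bun c.hb0) n n' e x :=
  (hP.pullComp j0 πC b0 0 d d c.fj0 c.hπC (.of_bun c.hb0) n n' n' e (by simp) e c.vC0 c.vC c.vZ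
    c.e0 x).symm

/-- Elements on `C0` extend to `C`. -/
theorem Config.C0_surj (hP : P.IsGood) (n n' : ℤ) (e : n' = n + d) (x : P.M C0 n') :
    ∃ z : P.M Z n, P.pull j0 0 c.fj0 n' n' (by simp) (P.pull πC d c.hπC n n' e z) = x := by
  obtain ⟨z, hz⟩ := hP.bundleSurj b0 d (.of_bun c.hb0) n n' e c.vC0 c.vZ c.hb0 x
  exact ⟨z, (c.pull_C0 hP n n' e z).trans hz⟩

/-- Elements on `V` are pull-backs. -/
theorem Config.V_surj (hP : P.IsGood) (n n' : ℤ) (e : n' = n + d) (x : P.M V n') :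
    ∃ z : P.M B n, P.pull πV d c.hπV n n' e z = x := by
  obtain ⟨y, hy⟩ := hP.bundleSurj a s (.of_bun c.ha) (n + r) n' (by rw [e, c.hd]; push_cast; ring)
    c.vV c.vB' c.ha x
  obtain ⟨z, hz⟩ := hP.bundleSurj b r (.of_bun c.hb) n (n + r) rfl c.vB' c.vB c.hb y
  refine ⟨z, ?_⟩
  rw [hP.pullComp a b πV s r d (.of_bun c.ha) (.of_bun c.hb) c.hπV n (n + r) n' rfl
    (by rw [e, c.hd]; push_cast; ring) e c.vV c.vB' c.vB c.hab z, hz, hy]

/-- Elements on `Y` that vanish on `V` come from `C'`. -/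
theorem Config.surj_of (hP : P.IsGood) (n n' : ℤ) (e : n' = n + d) (hs : Subsingleton (P.M S n))
    (y : P.M Y n') (hy : P.pull jY 0 c.fjY n' n' (by simp) y = 0) :
    ∃ x : P.M C' n', P.push iY c.hY.1 n' (P.push i' c.hC.1 n' x) = y := by
  obtain ⟨x, rfl⟩ := (hP.exact iY jY c.hY c.fjY n' c.vY y).1 hy
  obtain ⟨z, hz⟩ := c.C0_surj hP n n' e (P.pull j0 0 c.fj0 n' n' (by simp) x)
  have h1 : P.push iY c.hY.1 n' (P.pull πC d c.hπC n n' e z) = 0 := by
    rw [← hP.baseChange iY πC π i c.hY.1 c.hS.1 d c.hπC c.hπ n n' e c.vY c.vS c.cC z,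
      Subsingleton.elim (P.push i c.hS.1 n z) 0, map_zero]
  have h2 : P.pull j0 0 c.fj0 n' n' (by simp) (x - P.pull πC d c.hπC n n' e z) = 0 := by
    rw [map_sub, hz, sub_self]
  obtain ⟨x', hx'⟩ := (hP.exact i' j0 c.hC c.fj0 n' c.vC _).1 h2
  refine ⟨x', ?_⟩
  rw [hx', map_sub, h1, sub_zero]

variable {H : Sys.{u, v} k F} (hH : H.IsHomology)

include hH in
/-- The homology of `C'` injects into that of `Y`. -/
theorem Config.inj (m n n' : ℤ) (e : n' = n + d) (x : (H.g m).M C' n')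
    (hx : (H.g m).push iY c.hY.1 n' ((H.g m).push i' c.hC.1 n' x) = 0) : x = 0 := by
  have h1 : (H.g m).push i' c.hC.1 n' x = 0 := by
    obtain ⟨y, hy⟩ := ((hH.longExact m iY jY c.hY c.fjY n' c.vY).2 _).1 hx
    obtain ⟨β, rfl⟩ := c.V_surj (hH.good (m + 1)) n n' e y
    rw [hH.boundaryPull m i j c.hS iY jY c.hY π πC πV d c.hπ c.hπC c.hπV n n' e c.vY c.vS c.cC
      c.cV β] at hy
    have h2 := ((hH.good m).exact i' j0 c.hC c.fj0 n' c.vC _).2 ⟨x, rfl⟩
    rw [← hy, c.pull_C0 (hH.good m) n n' e] at h2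
    have h3 := hH.bundleInj m b0 d (.of_bun c.hb0) n n' e c.vC0 c.vZ c.hb0
      (h2.trans (map_zero _).symm)
    rw [← hy, h3, map_zero]
  obtain ⟨y, hy⟩ := ((hH.longExact m i' j0 c.hC c.fj0 n' c.vC).2 _).1 h1
  obtain ⟨z, rfl⟩ := c.C0_surj (hH.good (m + 1)) n n' e y
  rw [← hy]
  exact ((hH.longExact m i' j0 c.hC c.fj0 n' c.vC).1 _).2 ⟨_, rfl⟩

include hH in
/-- The homology of `Y` comes from `C'`. -/
theorem Config.surj (m n n' : ℤ) (e : n' = n + d) (hs : Subsingleton ((H.g m).M S n))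
    (y : (H.g m).M Y n') :
    ∃ x : (H.g m).M C' n', (H.g m).push iY c.hY.1 n' ((H.g m).push i' c.hC.1 n' x) = y := by
  apply c.surj_of (hH.good m) n n' e hs
  obtain ⟨m, rfl⟩ : ∃ m', m = m' + 1 := ⟨m - 1, by ring⟩
  obtain ⟨β, hβ⟩ := c.V_surj (hH.good (m + 1)) n n' e
    ((H.g (m + 1)).pull jY 0 c.fjY n' n' (by simp) y)
  have h1 := ((hH.longExact m iY jY c.hY c.fjY n' c.vY).1 _).2 ⟨y, rfl⟩
  rw [← hβ, hH.boundaryPull m i j c.hS iY jY c.hY π πC πV d c.hπ c.hπC c.hπV n n' e c.vY c.vS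
    c.cC c.cV β] at h1
  have h2 := congrArg ((H.g m).pull j0 0 c.fj0 n' n' (by simp)) h1
  rw [c.pull_C0 (hH.good m) n n' e, map_zero] at h2
  have h3 := hH.bundleInj m b0 d (.of_bun c.hb0) n n' e c.vC0 c.vZ c.hb0
    (h2.trans (map_zero _).symm)
  obtain ⟨σ, hσ⟩ := ((hH.longExact m i j c.hS c.fj n c.vS).1 _).1 h3
  rw [← hβ, ← hσ, Subsingleton.elim σ 0, map_zero, map_zero]

variable {T : Theory.{u, v, w} k F G} (hT : T.IsValid)
include hT

/-- The cycles on `Y` come from `C'`. -/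
theorem Config.chow_surj (n n' : ℤ) (e : n' = n + d) (hs : Subsingleton (T.C.M S n))
    (y : T.C.M Y n') :
    ∃ x : T.C.M C' n', T.C.push iY c.hY.1 n' (T.C.push i' c.hC.1 n' x) = y := by
  apply c.surj_of hT.chow n n' e hs
  obtain ⟨β, hβ⟩ := c.V_surj hT.chow n n' e (T.C.pull jY 0 c.fjY n' n' (by simp) y)
  obtain ⟨σ, hσ⟩ := hT.chowSurj i j c.hS c.fj n c.vS β
  rw [← hβ, ← hσ, Subsingleton.elim σ 0, map_zero, map_zero]

/-- The Tate conjecture for `Y` and for `C'`. -/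
theorem Config.tate_of (n n' : ℤ) (e : n' = n + d) (hs : Subsingleton (T.C.M S n))
    (h : T.Tate Y n') : T.Tate C' n' := by
  intro x hx
  replace hx : ∀ g, T.act _ _ g x = x := hx
  obtain ⟨w, hw⟩ := h ((T.H.g 0).push iY c.hY.1 n' ((T.H.g 0).push i' c.hC.1 n' x)) (fun g => by
    change T.act _ _ g _ = _
    rw [hT.equivariant.1 iY c.hY.1 n' c.vY, hT.equivariant.1 i' c.hC.1 n' c.vC, hx g])
  obtain ⟨w', rfl⟩ := c.chow_surj hT n n' e hs w
  refine ⟨w', ?_⟩
  change T.cl _ _ _ = _ at hw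
  rw [hT.cycleNat.1 iY c.hY.1 n' c.vY, hT.cycleNat.1 i' c.hC.1 n' c.vC] at hw
  have h1 := c.inj hT.homology 0 n n' e (T.cl C' n' w' - x) (by rw [map_sub, map_sub, hw, sub_self])
  exact sub_eq_zero.1 h1

theorem Config.tate_conv (n n' : ℤ) (e : n' = n + d) (hs : Subsingleton ((T.H.g 0).M S n))
    (h : T.Tate C' n') : T.Tate Y n' := by
  intro y hy
  obtain ⟨x, rfl⟩ := c.surj hT.homology 0 n n' e hs y
  obtain ⟨w, hw⟩ := h x (fun g => by
    have h1 := hy g
    change T.act _ _ g _ = _ at h1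
    change T.act _ _ g _ = _
    rw [hT.equivariant.1 iY c.hY.1 n' c.vY, hT.equivariant.1 i' c.hC.1 n' c.vC] at h1
    exact sub_eq_zero.1 (c.inj hT.homology 0 n n' e _ (by rw [map_sub, map_sub, h1, sub_self])))
  refine ⟨T.C.push iY c.hY.1 n' (T.C.push i' c.hC.1 n' w), ?_⟩
  change T.cl _ _ _ = _ at hw
  change T.cl _ _ _ = _
  rw [hT.cycleNat.1 iY c.hY.1 n' c.vY, hT.cycleNat.1 i' c.hC.1 n' c.vC, hw]

end

section

variable {T : Theory.{u, v, w} k F G} (hT : T.IsValid)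
include hT

/-- The Tate conjecture for a space with a flat map to `Z` that is a bundle on an open subset implies
the Tate conjecture for `Z`. -/
theorem Theory.IsValid.tate_of_open {D E Z : Sch k} {j : D ⟶ E} (hj : IsOp j) {f : E ⟶ Z} {d : ℕ}
    (hf : IsFlatDim f d) {b : D ⟶ Z} (hb : IsBun b d) (e0 : j ≫ f = b) (vD : IsVariety D)
    (vE : IsVariety E) (vZ : IsVariety Z) (n n' : ℤ) (e : n' = n + d) (h : T.Tate E n') :
    T.Tate Z n := by
  intro z hz
  replace hz : ∀ g, T.act _ _ g z = z := hz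
  obtain ⟨w, hw⟩ := h ((T.H.g 0).pull f d hf n n' e z) (fun g => by
    change T.act _ _ g _ = _
    rw [hT.equivariant.2 f d hf n n' e vE vZ, hz g])
  obtain ⟨w', hw'⟩ := hT.chow.bundleSurj b d (.of_bun hb) n n' e vD vZ hb
    (T.C.pull j 0 (.of_open hj) n' n' (by simp) w)
  refine ⟨w', ?_⟩
  change T.cl _ _ _ = _ at hw
  change T.cl _ _ _ = _
  apply hT.homology.bundleInj 0 b d (.of_bun hb) n n' e vD vZ hb
  rw [← hT.cycleNat.2 b d (.of_bun hb) n n' e vD vZ, hw',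
    hT.cycleNat.2 j 0 (.of_open hj) n' n' (by simp) vD vE, hw]
  exact ((hT.homology.good 0).pullComp j f b 0 d d (.of_open hj) hf (.of_bun hb) n n' n' e (by simp) e
    vD vE vZ e0 z).symm

/-- The Tate conjecture for an affine bundle implies that for the base. -/
theorem Theory.IsValid.tate_of_bundle {E Z : Sch k} {b : E ⟶ Z} {d : ℕ} (hb : IsBun b d)
    (vE : IsVariety E) (vZ : IsVariety Z) (n n' : ℤ) (e : n' = n + d) (h : T.Tate E n') :
    T.Tate Z n := by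
  refine hT.tate_of_open (j := 𝟙 E) ?_ (.of_bun hb) hb (Category.id_comp b) vE vE vZ n n' e h
  change IsOpenImmersion (𝟙 E.left)
  infer_instance

/-- The Tate conjecture for the base of an affine bundle implies that for the total space. -/
theorem Theory.IsValid.tate_bundle {E Z : Sch k} {b : E ⟶ Z} {d : ℕ} (hb : IsBun b d)
    (vE : IsVariety E) (vZ : IsVariety Z) (n n' : ℤ) (e : n' = n + d) (h : T.Tate Z n) :
    T.Tate E n' := by
  intro x hx
  obtain ⟨z, rfl⟩ := (hT.homology.good 0).bundleSurj b d (.of_bun hb) n n' e vE vZ hb x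
  obtain ⟨w, hw⟩ := h z (fun g => by
    have h1 := hx g
    change T.act _ _ g _ = _ at h1
    change T.act _ _ g _ = _
    rw [hT.equivariant.2 b d (.of_bun hb) n n' e vE vZ] at h1
    exact hT.homology.bundleInj 0 b d (.of_bun hb) n n' e vE vZ hb h1)
  change T.cl _ _ _ = _ at hw
  exact ⟨T.C.pull b d (.of_bun hb) n n' e w, by
    change T.cl _ _ _ = _
    rw [hT.cycleNat.2 b d (.of_bun hb) n n' e vE vZ, hw]⟩

end

end Pool.Agent.H854.AS
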