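import Pool.Agent.H854.AS.Defs
import Pool.Graph.R_pool_sql_team_seeded_1acbe0a2.Y138.UC.Bun

/-!
# The coordinate rings of the coverings `P(y) = φ`
-/

set_option autoImplicit false

open CategoryTheory AlgebraicGeometry Polynomial

universe u v w

namespace Pool.Agent.H854.AS

open Pool.Agent.Y138.UC

variable {k : Type u} [Field k]

theorem loc_eq {S L : Type u} [CommRing S] [CommRing L] (f : S →+* L) (a b q : S)
    (hu : IsUnit (f q)) (h : (a - b) * q = 0) : f b = f a := by
  have h1 := congrArg f h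
  rw [map_mul, map_zero, map_sub] at h1
  exact (sub_eq_zero.1 (hu.mul_left_eq_zero.1 h1)).symm

section General

variable (P : k[X]) {R R' : Type u} [CommRing R] [Algebra k R] [CommRing R'] [Algebra k R']
  (φ : R) (φ' : R')

theorem cov_rel : (aeval (AdjoinRoot.root (P.map (algebraMap k R) - C φ))) P =
    AdjoinRoot.of (P.map (algebraMap k R) - C φ) φ := by
  have h := AdjoinRoot.eval₂_root (P.map (algebraMap k R) - C φ)
  rw [eval₂_sub, eval₂_C, sub_eq_zero, eval₂_map] at h
  rw [← h, aeval_def]
  rfl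

theorem cov_rel0 (R : Type u) [CommRing R] [Algebra k R] :
    (aeval (AdjoinRoot.root (P.map (algebraMap k R) - C 0)) P : Cov P (0 : R)) = 0 :=
  (cov_rel P 0).trans (map_zero _)

/-- A homomorphism from the coordinate ring of the covering. -/
noncomputable def covLift {Q : Type u} [CommRing Q] [Algebra k Q] (h : R →+* Q)
    (hk : h.comp (algebraMap k R) = algebraMap k Q) (y : Q) (e : aeval y P = h φ) :
    Cov P φ →+* Q :=
  AdjoinRoot.lift h y (by rw [eval₂_sub, eval₂_C, eval₂_map, hk, ← aeval_def, e, sub_self])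

theorem covLift_of {Q : Type u} [CommRing Q] [Algebra k Q] (h : R →+* Q)
    (hk : h.comp (algebraMap k R) = algebraMap k Q) (y : Q) (e : aeval y P = h φ) (x : R) :
    covLift P φ h hk y e (AdjoinRoot.of _ x) = h x := AdjoinRoot.lift_of _

theorem covLift_root {Q : Type u} [CommRing Q] [Algebra k Q] (h : R →+* Q)
    (hk : h.comp (algebraMap k R) = algebraMap k Q) (y : Q) (e : aeval y P = h φ) :
    covLift P φ h hk y e (AdjoinRoot.root _) = y := AdjoinRoot.lift_root _

theorem cov_algebraMap : algebraMap k (Cov P φ) =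
    (AdjoinRoot.of (P.map (algebraMap k R) - C φ)).comp (algebraMap k R) := rfl

theorem covLift_alg {Q : Type u} [CommRing Q] [Algebra k Q] (h : R →+* Q)
    (hk : h.comp (algebraMap k R) = algebraMap k Q) (y : Q) (e : aeval y P = h φ) :
    (covLift P φ h hk y e).comp (algebraMap k (Cov P φ)) = algebraMap k Q := by
  refine RingHom.ext fun x => ?_
  rw [cov_algebraMap, RingHom.comp_apply, RingHom.comp_apply, covLift_of, ← hk]
  rfl

theorem cov_hom_ext {Q : Type u} [CommRing Q] (f g : Cov P φ →+* Q)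
    (h : ∀ x, f (AdjoinRoot.of _ x) = g (AdjoinRoot.of _ x))
    (h' : f (AdjoinRoot.root _) = g (AdjoinRoot.root _)) : f = g := by
  apply Ideal.Quotient.ringHom_ext
  apply Polynomial.ringHom_ext
  · exact h
  · exact h'

theorem covPoly_monic (hP : P.Monic) (hd : 0 < P.natDegree) :
    (P.map (algebraMap k R) - C φ).Monic := by
  nontriviality R
  apply (hP.map (algebraMap k R)).sub_of_left
  rw [hP.degree_map]
  exact lt_of_le_of_lt degree_C_le (natDegree_pos_iff_degree_pos.1 hd)

theorem cov_flat (hP : P.Monic) (hd : 0 < P.natDegree) :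
    Flat (Spec.map (CommRingCat.ofHom (AdjoinRoot.of (P.map (algebraMap k R) - C φ)))) := by
  have h := (covPoly_monic P φ hP hd).free_adjoinRoot
  rw [HasRingHomProperty.Spec_iff (P := @Flat)]
  exact (RingHom.flat_algebraMap_iff (R := R) (S := Cov P φ)).2 inferInstance

theorem cov_finite (hP : P.Monic) (hd : 0 < P.natDegree) :
    IsFinite (Spec.map (CommRingCat.ofHom (AdjoinRoot.of (P.map (algebraMap k R) - C φ)))) := by
  have h := (covPoly_monic P φ hP hd).finite_adjoinRoot
  rw [IsFinite.SpecMap_iff]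
  exact (RingHom.finite_algebraMap (A := R) (B := Cov P φ)).2 inferInstance

end General

section Map

variable (P : k[X]) {R R' : Type u} [CommRing R] [Algebra k R] [CommRing R'] [Algebra k R']
  (h : R →+* R') (hk : h.comp (algebraMap k R) = algebraMap k R') (φ : R) (φ' : R') (e : h φ = φ')

/-- The map of coverings over a map of bases. -/
noncomputable def covMap : Cov P φ →+* Cov P φ' :=
  covLift P φ ((AdjoinRoot.of _).comp h)
    (by rw [RingHom.comp_assoc, hk]; rfl) (AdjoinRoot.root _)
    (by rw [cov_rel, RingHom.comp_apply, e])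

theorem covMap_of (x : R) : covMap P h hk φ φ' e (AdjoinRoot.of _ x) = AdjoinRoot.of _ (h x) :=
  covLift_of _ _ _ _ _ _ x

theorem covMap_root : covMap P h hk φ φ' e (AdjoinRoot.root _) = AdjoinRoot.root _ :=
  covLift_root _ _ _ _ _ _

theorem covMap_alg : (covMap P h hk φ φ' e).comp (algebraMap k (Cov P φ)) =
    algebraMap k (Cov P φ') := covLift_alg _ _ _ _ _ _

theorem covMap_mk (p : R[X]) : covMap P h hk φ φ' e (AdjoinRoot.mk _ p) =
    AdjoinRoot.mk _ (p.map h) := by
  have h1 : (covMap P h hk φ φ' e).comp (AdjoinRoot.mk _) =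
      (AdjoinRoot.mk (P.map (algebraMap k R') - C φ')).comp (mapRingHom h) := by
    apply Polynomial.ringHom_ext
    · intro x
      rw [RingHom.comp_apply, AdjoinRoot.mk_C, covMap_of, RingHom.comp_apply, coe_mapRingHom,
        map_C, AdjoinRoot.mk_C]
    · rw [RingHom.comp_apply, AdjoinRoot.mk_X, covMap_root, RingHom.comp_apply, coe_mapRingHom,
        map_X, AdjoinRoot.mk_X]
  exact RingHom.congr_fun h1 p

theorem covMap_surjective (hs : Function.Surjective h) :
    Function.Surjective (covMap P h hk φ φ' e) := by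
  intro y
  obtain ⟨p, rfl⟩ := AdjoinRoot.mk_surjective y
  obtain ⟨p, rfl⟩ := Polynomial.map_surjective h hs p
  exact ⟨AdjoinRoot.mk _ p, covMap_mk P h hk φ φ' e p⟩

theorem covMap_ker (hs : Function.Surjective h) :
    RingHom.ker (covMap P h hk φ φ' e) ≤ (RingHom.ker h).map (AdjoinRoot.of _) := by
  intro y hy
  obtain ⟨p, rfl⟩ := AdjoinRoot.mk_surjective y
  rw [RingHom.mem_ker, covMap_mk, AdjoinRoot.mk_eq_zero] at hy
  obtain ⟨g, hg⟩ := hy
  obtain ⟨g, rfl⟩ := Polynomial.map_surjective h hs g
  have h1 : p - (P.map (algebraMap k R) - C φ) * g ∈ RingHom.ker (mapRingHom h) := by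
    rw [RingHom.mem_ker, coe_mapRingHom, Polynomial.map_sub, hg, Polynomial.map_mul,
      Polynomial.map_sub, Polynomial.map_map, hk, map_C, e, sub_self]
  rw [Polynomial.ker_mapRingHom] at h1
  have h2 : AdjoinRoot.mk (P.map (algebraMap k R) - C φ) p =
      AdjoinRoot.mk _ (p - (P.map (algebraMap k R) - C φ) * g) := by
    rw [map_sub, map_mul, AdjoinRoot.mk_self, zero_mul, sub_zero]
  rw [h2]
  have h3 := Ideal.mem_map_of_mem (AdjoinRoot.mk (P.map (algebraMap k R) - C φ)) h1
  rw [Ideal.map_map] at h3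
  exact h3

end Map

section Div

variable (P Q : k[X]) (c : k) (hPQ : P = (X - C c) * Q) (R : Type u) [CommRing R] [Algebra k R]

/-- The point `y = c`. -/
noncomputable def covPt (hc : P.eval c = 0) : Cov P (0 : R) →+* R :=
  covLift P 0 (RingHom.id R) rfl (algebraMap k R c) (by
    rw [aeval_algebraMap_apply, coe_aeval_eq_eval, hc, map_zero, map_zero])

theorem covPt_of (hc : P.eval c = 0) (x : R) : covPt P c R hc (AdjoinRoot.of _ x) = x :=
  covLift_of _ _ _ _ _ _ x

theorem covPt_root (hc : P.eval c = 0) :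
    covPt P c R hc (AdjoinRoot.root _) = algebraMap k R c :=
  covLift_root _ _ _ _ _ _

theorem covPt_alg (hc : P.eval c = 0) : (covPt P c R hc).comp (algebraMap k (Cov P (0 : R))) =
    algebraMap k R := covLift_alg _ _ _ _ _ _

theorem covPt_aeval (hc : P.eval c = 0) (g : k[X]) :
    covPt P c R hc (aeval (AdjoinRoot.root _) g) = algebraMap k R (g.eval c) := by
  have h1 : (covPt P c R hc) (aeval (AdjoinRoot.root _) g) =
      aeval (algebraMap k R c) g := by
    rw [aeval_def, hom_eval₂, covPt_alg, covPt_root, ← aeval_def]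
  rw [h1, aeval_algebraMap_apply, coe_aeval_eq_eval]

include hPQ in
theorem eval_zero_of_mul : P.eval c = 0 := by
  rw [hPQ, eval_mul, eval_sub, eval_X, eval_C, sub_self, zero_mul]

include hPQ in
theorem isUnit_covPt (hQ : Q.eval c ≠ 0) : IsUnit (covPt P c R (eval_zero_of_mul P Q c hPQ)
    (aeval (AdjoinRoot.root _) Q)) := by
  rw [covPt_aeval]
  exact (isUnit_iff_ne_zero.2 hQ).map (algebraMap k R)

include hPQ in
/-- The point `y = c` is open, if `c` is a simple root. -/
theorem covPt_spec (hQ : Q.eval c ≠ 0) :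
    IsOpenImmersion (Spec.map (CommRingCat.ofHom (covPt P c R (eval_zero_of_mul P Q c hPQ)))) ∧
      Set.range (Spec.map (CommRingCat.ofHom (covPt P c R (eval_zero_of_mul P Q c hPQ)))) =
        (PrimeSpectrum.basicOpen (aeval (AdjoinRoot.root _) Q : Cov P (0 : R)) :
          Set (PrimeSpectrum (Cov P (0 : R)))) := by
  refine isOpenImmersion_of_inverse _ _ (isUnit_covPt P Q c hPQ R hQ)
    ((algebraMap (Cov P (0 : R)) _).comp (AdjoinRoot.of _)) ?_ ?_
  · apply cov_hom_ext
    · intro x
      rw [RingHom.comp_apply, covPt_of]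
      rfl
    · rw [RingHom.comp_apply, covPt_root]
      have hu : IsUnit (algebraMap (Cov P (0 : R))
          (Localization.Away (aeval (AdjoinRoot.root _) Q : Cov P (0 : R)))
          (aeval (AdjoinRoot.root _) Q)) := IsLocalization.Away.algebraMap_isUnit _
      have h1 : aeval (AdjoinRoot.root (P.map (algebraMap k R) - C 0)) ((X - C c) * Q) =
          (0 : Cov P (0 : R)) :=
        (congrArg (aeval (AdjoinRoot.root (P.map (algebraMap k R) - C 0))) hPQ).symm.trans
          (cov_rel0 P R)
      rw [map_mul, map_sub, aeval_X, aeval_C] at h1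
      exact loc_eq _ _ _ _ hu h1
  · refine RingHom.ext fun x => ?_
    rw [RingHom.comp_apply, RingHom.comp_apply, IsLocalization.Away.lift_eq, covPt_of]
    rfl

/-- The closed subscheme `Q(y) = 0`. -/
noncomputable def covDiv : Cov P (0 : R) →+* Cov Q (0 : R) :=
  covLift P 0 (AdjoinRoot.of _) rfl (AdjoinRoot.root _) ((by
    rw [hPQ, map_mul, cov_rel0, mul_zero] :
      aeval (AdjoinRoot.root (Q.map (algebraMap k R) - C 0)) P = (0 : Cov Q (0 : R))).trans
    (map_zero (AdjoinRoot.of (Q.map (algebraMap k R) - C 0))).symm)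

theorem covDiv_of (x : R) : covDiv P Q c hPQ R (AdjoinRoot.of _ x) = AdjoinRoot.of _ x :=
  covLift_of _ _ _ _ _ _ x

theorem covDiv_root : covDiv P Q c hPQ R (AdjoinRoot.root _) = AdjoinRoot.root _ :=
  covLift_root _ _ _ _ _ _

theorem covDiv_alg : (covDiv P Q c hPQ R).comp (algebraMap k (Cov P (0 : R))) =
    algebraMap k (Cov Q (0 : R)) := covLift_alg _ _ _ _ _ _

theorem covDiv_mk (p : R[X]) : covDiv P Q c hPQ R (AdjoinRoot.mk _ p) = AdjoinRoot.mk _ p := by
  have h1 : (covDiv P Q c hPQ R).comp (AdjoinRoot.mk _) =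
      AdjoinRoot.mk (Q.map (algebraMap k R) - C 0) := by
    apply Polynomial.ringHom_ext
    · intro x
      exact covDiv_of P Q c hPQ R x
    · exact covDiv_root P Q c hPQ R
  exact RingHom.congr_fun h1 p

theorem covDiv_surjective : Function.Surjective (covDiv P Q c hPQ R) := by
  intro y
  obtain ⟨p, rfl⟩ := AdjoinRoot.mk_surjective y
  exact ⟨AdjoinRoot.mk _ p, covDiv_mk P Q c hPQ R p⟩

theorem covDiv_ker : RingHom.ker (covDiv P Q c hPQ R) =
    Ideal.span {(aeval (AdjoinRoot.root _) Q : Cov P (0 : R))} := by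
  have h0 : (aeval (AdjoinRoot.root (P.map (algebraMap k R) - C 0)) Q : Cov P (0 : R)) =
      AdjoinRoot.mk _ (Q.map (algebraMap k R)) := by
    have h1 : ((AdjoinRoot.mk (P.map (algebraMap k R) - C 0)).comp
        (mapRingHom (algebraMap k R))) = (aeval (AdjoinRoot.root
          (P.map (algebraMap k R) - C 0)) : k[X] →ₐ[k] Cov P (0 : R)).toRingHom := by
      apply Polynomial.ringHom_ext
      · intro x
        rw [RingHom.comp_apply, coe_mapRingHom, map_C]
        change _ = aeval _ (C x)
        rw [aeval_C]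
        rfl
      · rw [RingHom.comp_apply, coe_mapRingHom, map_X]
        change _ = aeval _ X
        rw [aeval_X]
        rfl
    exact (RingHom.congr_fun h1 Q).symm
  apply le_antisymm
  · intro y hy
    obtain ⟨p, rfl⟩ := AdjoinRoot.mk_surjective y
    rw [RingHom.mem_ker, covDiv_mk, AdjoinRoot.mk_eq_zero, C_0, sub_zero] at hy
    obtain ⟨g, rfl⟩ := hy
    rw [map_mul, ← h0]
    exact Ideal.mul_mem_right _ _ (Ideal.subset_span rfl)
  · rw [Ideal.span_le, Set.singleton_subset_iff]
    change covDiv P Q c hPQ R _ = 0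
    rw [h0, covDiv_mk, AdjoinRoot.mk_eq_zero, C_0, sub_zero]

end Div

end Pool.Agent.H854.AS
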