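import Pool.Agent.H854.AS.Alg

/-!
# The covering `P(y) = ∑ tᵢ qᵢ` as a hypersurface that is linear in the `tᵢ`
-/

set_option autoImplicit false

open CategoryTheory AlgebraicGeometry Polynomial

universe u v w

namespace Pool.Agent.H854.AS

open Pool.Agent.Y138.UC

variable {k : Type u} [Field k]

theorem liftSurj_apply {A B C : Type u} [CommRing A] [CommRing B] [CommRing C] (f : A →+* B)
    (hf : Function.Surjective f) (g : A →+* C) (h : RingHom.ker f ≤ RingHom.ker g) (x : A) :
    (RingHom.liftOfSurjective f hf ⟨g, h⟩) (f x) = g x :=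
  RingHom.liftOfRightInverse_comp_apply f _ (Function.rightInverse_surjInv hf) ⟨g, h⟩ x

theorem map_phi {A S : Type u} [CommRing A] [CommRing S] {r : ℕ} (q : Fin (r + 1) → A)
    (f : MvPolynomial (Fin (r + 1)) A →+* S) :
    f (phi q) = ∑ i, f (MvPolynomial.C (q i)) * f (MvPolynomial.X i) := by
  rw [phi, map_sum]
  exact Finset.sum_congr rfl fun i _ => map_mul _ _ _

/-- A commutative square of rings which is a pushout. -/
theorem isPushout_of_surjective {A B C D : Type u} [CommRing A] [CommRing B] [CommRing C]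
    [CommRing D] (f : A →+* B) (g : A →+* C) (f' : B →+* D) (g' : C →+* D)
    (comm : f'.comp f = g'.comp g) (hg : Function.Surjective g) (hf' : Function.Surjective f')
    (hk : RingHom.ker f' ≤ (RingHom.ker g).map f) :
    IsPushout (CommRingCat.ofHom f) (CommRingCat.ofHom g) (CommRingCat.ofHom f')
      (CommRingCat.ofHom g') := by
  have w : CommRingCat.ofHom f ≫ CommRingCat.ofHom f' =
      CommRingCat.ofHom g ≫ CommRingCat.ofHom g' := by
    rw [← CommRingCat.ofHom_comp, ← CommRingCat.ofHom_comp, comm]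
  refine ⟨⟨w⟩, ⟨Limits.PushoutCocone.IsColimit.mk _ (fun s => ?_) ?_ ?_ ?_⟩⟩
  · refine CommRingCat.ofHom (RingHom.liftOfSurjective f' hf' ⟨s.inl.hom, ?_⟩)
    refine hk.trans ?_
    rw [Ideal.map_le_iff_le_comap]
    intro x hx
    have h1 : (CommRingCat.ofHom f ≫ s.inl).hom x = (CommRingCat.ofHom g ≫ s.inr).hom x := by
      rw [s.condition]
    change s.inl.hom (f x) = 0
    refine Eq.trans h1 ?_
    change s.inr.hom (g x) = 0
    rw [RingHom.mem_ker.1 hx, map_zero]
  · intro s
    apply CommRingCat.hom_ext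
    refine RingHom.ext fun x => ?_
    exact liftSurj_apply _ _ _ _ x
  · intro s
    apply CommRingCat.hom_ext
    refine RingHom.ext fun x => ?_
    obtain ⟨x, rfl⟩ := hg x
    have h1 : (CommRingCat.ofHom f ≫ s.inl).hom x = (CommRingCat.ofHom g ≫ s.inr).hom x := by
      rw [s.condition]
    change (RingHom.liftOfSurjective f' hf' ⟨s.inl.hom, _⟩) (g' (g x)) = s.inr.hom (g x)
    rw [← RingHom.comp_apply g' g x, ← comm, RingHom.comp_apply]
    exact (liftSurj_apply _ _ _ _ (f x)).trans h1
  · intro s m hm _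
    apply CommRingCat.hom_ext
    refine RingHom.ext fun x => ?_
    obtain ⟨x, rfl⟩ := hf' x
    have h1 : (CommRingCat.ofHom f' ≫ m).hom x = s.inl.hom x := by rw [hm]
    refine Eq.trans h1 ?_
    exact (liftSurj_apply _ _ _ _ x).symm

section Iso

variable (P : k[X]) {A : Type u} [CommRing A] [Algebra k A] {r : ℕ} (q : Fin (r + 1) → A)

/-- The ring `A[y]`. -/
abbrev Ay (A : Type u) [CommRing A] : Type u := MvPolynomial (Fin 1) A

/-- The ring `A[t₀, …, tᵣ]`. -/
abbrev At (A : Type u) [CommRing A] (r : ℕ) : Type u := MvPolynomial (Fin (r + 1)) A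

/-- The functions `qᵢ` on the line over `Spec A`. -/
noncomputable def qy : Fin (r + 1) → Ay A := fun i => MvPolynomial.C (q i)

/-- The function `P(y)`. -/
noncomputable def py (A : Type u) [CommRing A] [Algebra k A] : Ay A := aeval (MvPolynomial.X 0) P

/-- The coordinate ring of the covering `P(y) = ∑ tᵢ qᵢ`. -/
abbrev CovQ : Type u := Cov P (phi q)

/-- The map to the line over `Spec A`. -/
noncomputable def strY : Ay A →+* CovQ P q :=
  MvPolynomial.eval₂Hom ((AdjoinRoot.of _).comp MvPolynomial.C) (fun _ => AdjoinRoot.root _)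

theorem strY_C (x : A) : strY P q (MvPolynomial.C x) = AdjoinRoot.of _ (MvPolynomial.C x) :=
  MvPolynomial.eval₂Hom_C _ _ _

theorem strY_X : strY P q (MvPolynomial.X 0) = AdjoinRoot.root _ :=
  MvPolynomial.eval₂Hom_X' _ _ _

theorem strY_alg : (strY P q).comp (algebraMap k (Ay A)) = algebraMap k (CovQ P q) :=
  RingHom.ext fun x => strY_C P q (algebraMap k A x)

theorem aeval_comp {Q Q' : Type u} [CommRing Q] [Algebra k Q] [CommRing Q'] [Algebra k Q']
    (f : Q →+* Q') (hf : f.comp (algebraMap k Q) = algebraMap k Q') (y : Q) (p : k[X]) :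
    f (aeval y p) = aeval (f y) p := by
  rw [aeval_def, hom_eval₂, hf, ← aeval_def]

/-- The isomorphism of the two rings. -/
noncomputable def fwd : Hyp (qy q) (py P A) →+* CovQ P q :=
  Ideal.Quotient.lift _ (MvPolynomial.eval₂Hom (strY P q)
    (fun i => AdjoinRoot.of _ (MvPolynomial.X i))) (by
    intro x hx
    refine Submodule.span_induction ?_ ?_ ?_ ?_ hx
    · rintro _ rfl
      rw [map_sub, MvPolynomial.eval₂Hom_C, py, aeval_comp _ (strY_alg P q), strY_X, cov_rel,
        sub_eq_zero, map_phi]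
      refine Eq.trans ?_ (map_phi q (AdjoinRoot.of _)).symm
      refine Finset.sum_congr rfl fun i _ => ?_
      rw [MvPolynomial.eval₂Hom_C, MvPolynomial.eval₂Hom_X', qy, strY_C]
    · exact map_zero _
    · intro x y _ _ hx hy
      rw [map_add, hx, hy, add_zero]
    · intro a x _ hx
      rw [smul_eq_mul, map_mul, hx, mul_zero])

theorem fwd_strH (x : Ay A) : fwd P q (strH (qy q) (py P A) x) = strY P q x := by
  change fwd P q (Ideal.Quotient.mk _ (MvPolynomial.C x)) = _
  rw [fwd, Ideal.Quotient.lift_mk, MvPolynomial.eval₂Hom_C]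

theorem fwd_X (i : Fin (r + 1)) : fwd P q (Ideal.Quotient.mk _ (MvPolynomial.X i)) =
    AdjoinRoot.of _ (MvPolynomial.X i) := by
  rw [fwd, Ideal.Quotient.lift_mk, MvPolynomial.eval₂Hom_X']

/-- The map of the polynomial ring. -/
noncomputable def bwdT : At A r →+* Hyp (qy q) (py P A) :=
  MvPolynomial.eval₂Hom ((strH (qy q) (py P A)).comp MvPolynomial.C)
    (fun i => Ideal.Quotient.mk _ (MvPolynomial.X i))

theorem bwdT_C (x : A) : bwdT P q (MvPolynomial.C x) =
    strH (qy q) (py P A) (MvPolynomial.C x) := MvPolynomial.eval₂Hom_C _ _ _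

theorem bwdT_X (i : Fin (r + 1)) : bwdT P q (MvPolynomial.X i) =
    Ideal.Quotient.mk _ (MvPolynomial.X i) := MvPolynomial.eval₂Hom_X' _ _ _

theorem strH_alg' : (strH (qy q) (py P A)).comp (algebraMap k (Ay A)) =
    algebraMap k (Hyp (qy q) (py P A)) := rfl

theorem bwdT_phi : bwdT P q (phi q) = strH (qy q) (py P A) (py P A) := by
  have h1 : (Ideal.Quotient.mk (Ideal.span {phi (qy q) - MvPolynomial.C (py P A)}))
      (phi (qy q) - MvPolynomial.C (py P A)) = 0 :=
    Ideal.Quotient.eq_zero_iff_mem.2 (Ideal.subset_span rfl)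
  rw [map_sub, sub_eq_zero] at h1
  refine Eq.trans ?_ h1
  rw [map_phi, map_phi]
  refine Finset.sum_congr rfl fun i _ => ?_
  rw [bwdT_C, bwdT_X]
  rfl

/-- The inverse. -/
noncomputable def bwd : CovQ P q →+* Hyp (qy q) (py P A) :=
  covLift P (phi q) (bwdT P q)
    (RingHom.ext fun x => bwdT_C P q (algebraMap k A x))
    (strH (qy q) (py P A) (MvPolynomial.X 0)) (by
      rw [← aeval_comp _ (strH_alg' P q), bwdT_phi]
      rfl)

theorem bwd_of (x : At A r) : bwd P q (AdjoinRoot.of _ x) = bwdT P q x := covLift_of _ _ _ _ _ _ x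

theorem bwd_root : bwd P q (AdjoinRoot.root _) = strH (qy q) (py P A) (MvPolynomial.X 0) :=
  covLift_root _ _ _ _ _ _

theorem fwd_bwd : (fwd P q).comp (bwd P q) = RingHom.id _ := by
  apply cov_hom_ext
  · intro x
    rw [RingHom.comp_apply, bwd_of, RingHom.id_apply]
    have h1 : (fwd P q).comp (bwdT P q) = AdjoinRoot.of _ := by
      apply MvPolynomial.ringHom_ext
      · intro a
        rw [RingHom.comp_apply, bwdT_C, fwd_strH, strY_C]
      · intro i
        rw [RingHom.comp_apply, bwdT_X, fwd_X]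
    exact RingHom.congr_fun h1 x
  · rw [RingHom.comp_apply, bwd_root, fwd_strH, strY_X, RingHom.id_apply]

theorem bwd_fwd : (bwd P q).comp (fwd P q) = RingHom.id _ := by
  refine Ideal.Quotient.ringHom_ext (MvPolynomial.ringHom_ext ?_ ?_)
  · intro x
    change bwd P q (fwd P q (strH (qy q) (py P A) x)) = strH (qy q) (py P A) x
    rw [fwd_strH]
    have h1 : (bwd P q).comp (strY P q) = strH (qy q) (py P A) := by
      apply MvPolynomial.ringHom_ext
      · intro a
        rw [RingHom.comp_apply, strY_C, bwd_of, bwdT_C]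
      · intro i
        rw [Subsingleton.elim i 0, RingHom.comp_apply, strY_X, bwd_root]
    exact RingHom.congr_fun h1 x
  · intro i
    change bwd P q (fwd P q (Ideal.Quotient.mk _ (MvPolynomial.X i))) =
      Ideal.Quotient.mk _ (MvPolynomial.X i)
    rw [fwd_X, bwd_of, bwdT_X]

/-- The isomorphism of the two rings. -/
noncomputable def isoQ : Hyp (qy q) (py P A) ≃+* CovQ P q :=
  RingEquiv.ofRingHom (fwd P q) (bwd P q) (fwd_bwd P q) (bwd_fwd P q)

/-- The covering is locally a product over the line over the complement of the common zeros of the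
`qᵢ`. -/
theorem loc_trivQ : ∀ x ∈ opU (qy q), ∃ a : Ay A, x ∈ PrimeSpectrum.basicOpen a ∧
      (PrimeSpectrum.basicOpen a : Set (PrimeSpectrum (Ay A))) ⊆
        (opU (qy q) : Set (Spec (.of (Ay A)))) ∧
      ∃ θ : CovQ P q →+* MvPolynomial (Fin r) (Localization.Away a),
        IsOpenImmersion (Spec.map (CommRingCat.ofHom θ)) ∧
        Set.range (Spec.map (CommRingCat.ofHom θ)) =
          (PrimeSpectrum.basicOpen (strY P q a) : Set (PrimeSpectrum (CovQ P q))) ∧
        θ.comp (strY P q) = MvPolynomial.C.comp (algebraMap (Ay A) (Localization.Away a)) := by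
  intro x hx
  obtain ⟨a, h1, h2, θ, h3, h4, h5⟩ := loc_triv (qy q) (py P A) x hx
  have hi : IsIso (Spec.map (CommRingCat.ofHom (bwd P q))) := by
    have h6 : CommRingCat.ofHom (bwd P q) = (isoQ P q).symm.toCommRingCatIso.hom := by
      apply CommRingCat.hom_ext
      rfl
    rw [h6]
    infer_instance
  have h7 : Spec.map (CommRingCat.ofHom (θ.comp (bwd P q))) =
      Spec.map (CommRingCat.ofHom θ) ≫ Spec.map (CommRingCat.ofHom (bwd P q)) := by
    rw [← Spec.map_comp, ← CommRingCat.ofHom_comp]
  have h8 : (fwd P q).comp (strH (qy q) (py P A)) = strY P q :=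
    RingHom.ext fun x => fwd_strH P q x
  refine ⟨a, h1, h2, θ.comp (bwd P q), ?_, ?_, ?_⟩
  · rw [h7]
    infer_instance
  · rw [h7]
    ext y
    constructor
    · rintro ⟨z, rfl⟩
      have h9 : Spec.map (CommRingCat.ofHom θ) z ∈
          (PrimeSpectrum.basicOpen (strH (qy q) (py P A) a) :
            Set (PrimeSpectrum (Hyp (qy q) (py P A)))) := by
        rw [← h4]
        exact ⟨z, rfl⟩
      have h10 : bwd P q (strY P q a) = strH (qy q) (py P A) a := by
        rw [← h8, RingHom.comp_apply]
        exact RingHom.congr_fun (bwd_fwd P q) _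
      intro h11
      apply h9
      rw [← h10]
      exact h11
    · intro hy
      obtain ⟨z, hz⟩ := (Spec.map (CommRingCat.ofHom (bwd P q))).surjective y
      have h9 : z ∈ Set.range (Spec.map (CommRingCat.ofHom θ)) := by
        rw [h4]
        intro h11
        apply hy
        rw [← hz]
        have h10 : bwd P q (strY P q a) = strH (qy q) (py P A) a := by
          rw [← h8, RingHom.comp_apply]
          exact RingHom.congr_fun (bwd_fwd P q) _
        change bwd P q (strY P q a) ∈ (show PrimeSpectrum (Hyp (qy q) (py P A)) from z).asIdeal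
        rw [h10]
        exact h11
      obtain ⟨w, rfl⟩ := h9
      exact ⟨w, hz⟩
  · refine RingHom.ext fun x => ?_
    have h10 : bwd P q (strY P q x) = strH (qy q) (py P A) x := by
      rw [← h8, RingHom.comp_apply]
      exact RingHom.congr_fun (bwd_fwd P q) _
    change θ (bwd P q (strY P q x)) = _
    rw [h10]
    exact RingHom.congr_fun h5 x

end Iso

end Pool.Agent.H854.AS
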