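import Pool.Graph.R_pool_sql_team_seeded_1acbe0a2.Y138.UC.Defs

/-!
# Borel–Moore homology with the action of a group, cycles, and coverings `P(y) = g(x)` of affine spaces
-/

set_option autoImplicit false

open CategoryTheory AlgebraicGeometry

universe u v w

namespace Pool.Agent.H854.AS

open Pool.Agent.Y138.UC

variable {k : Type u} [Field k]

/-- `f` is the composition of a flat quasi-finite morphism and an affine bundle of rank `r`; it is
flat of relative dimension `r`. -/
def IsFlatDim {E B : Sch k} (f : E ⟶ B) (r : ℕ) : Prop :=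
  ∃ (P : Sch k) (g : E ⟶ P) (b : P ⟶ B), IsBun b r ∧ Flat g.left ∧ LocallyQuasiFinite g.left ∧
    g ≫ b = f

/-- The square with the sides `i' : Z' → E`, `f' : Z' → Z`, `f : E → B`, `i : Z → B` is a fibre
product square. -/
def IsCart {Z' E Z B : Sch k} (i' : Z' ⟶ E) (f' : Z' ⟶ Z) (f : E ⟶ B) (i : Z ⟶ B) : Prop :=
  IsPullback i'.left f'.left f.left i.left

variable (k) in
/-- A system of `F`-vector spaces `M X n` for the schemes `X` over `k` and the integers `n`
(the dimension), with the push-forward along closed immersions and the flat pull-back (which shifts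
the dimension by the relative dimension). -/
structure Grp (F : Type v) [Field F] where
  M : Sch k → ℤ → ModuleCat.{v} F
  push : ∀ {Z X : Sch k} (i : Z ⟶ X), IsCl i → ∀ n, M Z n →ₗ[F] M X n
  pull : ∀ {E B : Sch k} (f : E ⟶ B) (r : ℕ), IsFlatDim f r → ∀ n n' : ℤ, n' = n + r →
    (M B n →ₗ[F] M E n')

variable (k) in
/-- A family of such systems, indexed by the integers, with boundary maps. -/
structure Sys (F : Type v) [Field F] where
  g : ℤ → Grp.{u, v} k F
  bd : ∀ (m : ℤ) {Z X U : Sch k} (i : Z ⟶ X) (j : U ⟶ X), IsComplement i j → ∀ n,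
    ((g (m + 1)).M U n →ₗ[F] (g m).M Z n)

variable (k) in
/-- The data of a homology theory with cycle classes and the action of a group `G` (the absolute
Galois group of `k`): `(H.g m).M X n` is the homology `H_{2 n + m}(X, -n)`, `C.M X n` the group of
cycles of dimension `n` modulo rational equivalence with coefficients in `F`, and `cl` the cycle
class map to `H_{2 n}(X, -n)`, on which `G` acts. -/
structure Theory (F : Type v) [Field F] (G : Type w) [Group G] where
  H : Sys.{u, v} k F
  C : Grp.{u, v} k F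
  cl : ∀ (X : Sch k) (n : ℤ), C.M X n →ₗ[F] (H.g 0).M X n
  act : ∀ (X : Sch k) (n : ℤ), Representation F G ((H.g 0).M X n)

variable {F : Type v} [Field F] {G : Type w} [Group G]

/-- The flat pull-back is functorial. -/
def Grp.PullComp (P : Grp.{u, v} k F) : Prop :=
  ∀ {D E B : Sch k} (g : D ⟶ E) (f : E ⟶ B) (h : D ⟶ B) (s r t : ℕ) (hg : IsFlatDim g s)
    (hf : IsFlatDim f r) (hh : IsFlatDim h t) (n n' n'' : ℤ) (e : n' = n + r) (e' : n'' = n' + s)
    (e'' : n'' = n + t), IsVariety D → IsVariety E → IsVariety B → g ≫ f = h →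
    ∀ x, P.pull h t hh n n'' e'' x = P.pull g s hg n' n'' e' (P.pull f r hf n n' e x)

/-- The flat pull-back commutes with the push-forward along closed immersions. -/
def Grp.BaseChange (P : Grp.{u, v} k F) : Prop :=
  ∀ {Z' E Z B : Sch k} (i' : Z' ⟶ E) (f' : Z' ⟶ Z) (f : E ⟶ B) (i : Z ⟶ B) (hi' : IsCl i')
    (hi : IsCl i) (r : ℕ) (hf' : IsFlatDim f' r) (hf : IsFlatDim f r) (n n' : ℤ) (e : n' = n + r),
    IsVariety E → IsVariety B → IsCart i' f' f i →
    ∀ x, P.pull f r hf n n' e (P.push i hi n x) = P.push i' hi' n' (P.pull f' r hf' n n' e x)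

/-- The pull-back along affine bundles is surjective. -/
def Grp.BundleSurjective (P : Grp.{u, v} k F) : Prop :=
  ∀ {E B : Sch k} (f : E ⟶ B) (r : ℕ) (hf : IsFlatDim f r) (n n' : ℤ) (e : n' = n + r),
    IsVariety E → IsVariety B → IsBun f r → Function.Surjective (P.pull f r hf n n' e)

/-- The pull-back along affine bundles is injective. -/
def Grp.BundleInjective (P : Grp.{u, v} k F) : Prop :=
  ∀ {E B : Sch k} (f : E ⟶ B) (r : ℕ) (hf : IsFlatDim f r) (n n' : ℤ) (e : n' = n + r),
    IsVariety E → IsVariety B → IsBun f r → Function.Injective (P.pull f r hf n n' e)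

/-- For a closed subscheme and its open complement, the kernel of the restriction is the image of the
push-forward. -/
def Grp.IsExact (P : Grp.{u, v} k F) : Prop :=
  ∀ {Z X U : Sch k} (i : Z ⟶ X) (j : U ⟶ X) (h : IsComplement i j) (hj : IsFlatDim j 0)
    (n : ℤ), IsVariety X →
    Function.Exact (P.push i h.1 n) (P.pull j 0 hj n n (by simp))

/-- For a closed subscheme and its open complement, the restriction is surjective. -/
def Grp.RestrictionSurjective (P : Grp.{u, v} k F) : Prop :=
  ∀ {Z X U : Sch k} (i : Z ⟶ X) (j : U ⟶ X) (_ : IsComplement i j) (hj : IsFlatDim j 0)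
    (n : ℤ), IsVariety X →
    Function.Surjective (P.pull j 0 hj n n (by simp))

/-- The properties of the homology groups and of the Chow groups that are used. -/
structure Grp.IsGood (P : Grp.{u, v} k F) : Prop where
  pullComp : P.PullComp
  baseChange : P.BaseChange
  bundleSurj : P.BundleSurjective
  exact : P.IsExact

/-- The long exact sequence of a closed subscheme and its open complement. -/
def Sys.LongExact (H : Sys.{u, v} k F) : Prop :=
  ∀ (m : ℤ) {Z X U : Sch k} (i : Z ⟶ X) (j : U ⟶ X) (h : IsComplement i j) (hj : IsFlatDim j 0)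
    (n : ℤ), IsVariety X →
    Function.Exact ((H.g (m + 1)).pull j 0 hj n n (by simp)) (H.bd m i j h n) ∧
      Function.Exact (H.bd m i j h n) ((H.g m).push i h.1 n)

/-- The boundary map commutes with the flat pull-back: `Z' ⊆ E ⊇ U'` is the inverse image of
`Z ⊆ X ⊇ U` under `f : E → X`. -/
def Sys.BoundaryPull (H : Sys.{u, v} k F) : Prop :=
  ∀ (m : ℤ) {Z X U Z' E U' : Sch k} (i : Z ⟶ X) (j : U ⟶ X) (h : IsComplement i j)
    (i' : Z' ⟶ E) (j' : U' ⟶ E) (h' : IsComplement i' j') (f : E ⟶ X) (fZ : Z' ⟶ Z) (fU : U' ⟶ U)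
    (r : ℕ) (_ : IsFlatDim f r) (hZ : IsFlatDim fZ r) (hU : IsFlatDim fU r) (n n' : ℤ)
    (e : n' = n + r), IsVariety E → IsVariety X → IsCart i' fZ f i → IsCart j' fU f j →
    ∀ x, H.bd m i' j' h' n' ((H.g (m + 1)).pull fU r hU n n' e x) =
      (H.g m).pull fZ r hZ n n' e (H.bd m i j h n x)

/-- The properties of the homology groups that are used. -/
structure Sys.IsHomology (H : Sys.{u, v} k F) : Prop where
  good : ∀ m, (H.g m).IsGood
  bundleInj : ∀ m, (H.g m).BundleInjective
  longExact : H.LongExact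
  boundaryPull : H.BoundaryPull

/-- The homology of the point in degree `2 n + m` vanishes for `2 n + m ≠ 0`, and there are only
cycles of dimension zero on the point. -/
def Theory.Point (T : Theory.{u, v, w} k F G) : Prop :=
  (∀ m n : ℤ, m + 2 * n ≠ 0 → Subsingleton ((T.H.g m).M (aff k k) n)) ∧
    ∀ n : ℤ, n ≠ 0 → Subsingleton (T.C.M (aff k k) n)

/-- The push-forward of an element. -/
def Grp.psh (P : Grp.{u, v} k F) {Z X : Sch k} (i : Z ⟶ X) (hi : IsCl i) {n : ℤ}
    (x : P.M Z n) : P.M X n := P.push i hi n x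

/-- The pull-back of an element. -/
def Grp.pll (P : Grp.{u, v} k F) {E B : Sch k} (f : E ⟶ B) {r : ℕ} (hf : IsFlatDim f r) {n n' : ℤ}
    (e : n' = n + r) (x : P.M B n) : P.M E n' := P.pull f r hf n n' e x

/-- The class of a cycle. -/
def Theory.cls (T : Theory.{u, v, w} k F G) {X : Sch k} {n : ℤ} (z : T.C.M X n) :
    (T.H.g 0).M X n := T.cl X n z

/-- The action of `g` on a class. -/
def Theory.on (T : Theory.{u, v, w} k F G) {X : Sch k} {n : ℤ} (g : G) (x : (T.H.g 0).M X n) :
    (T.H.g 0).M X n := T.act X n g x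

/-- The cycle class map is compatible with push-forward and pull-back. -/
def Theory.CycleNat (T : Theory.{u, v, w} k F G) : Prop :=
  (∀ {Z X : Sch k} (i : Z ⟶ X) (hi : IsCl i) (n : ℤ), IsVariety X → ∀ x : T.C.M Z n,
    T.cls (T.C.psh i hi x) = (T.H.g 0).psh i hi (T.cls x)) ∧
  ∀ {E B : Sch k} (f : E ⟶ B) (r : ℕ) (hf : IsFlatDim f r) (n n' : ℤ) (e : n' = n + r),
    IsVariety E → IsVariety B → ∀ x : T.C.M B n,
    T.cls (T.C.pll f hf e x) = (T.H.g 0).pll f hf e (T.cls x)

/-- Push-forward and pull-back are `G`-equivariant. -/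
def Theory.Equivariant (T : Theory.{u, v, w} k F G) : Prop :=
  (∀ {Z X : Sch k} (i : Z ⟶ X) (hi : IsCl i) (n : ℤ), IsVariety X →
    ∀ (g : G) (x : (T.H.g 0).M Z n),
    T.on g ((T.H.g 0).psh i hi x) = (T.H.g 0).psh i hi (T.on g x)) ∧
  ∀ {E B : Sch k} (f : E ⟶ B) (r : ℕ) (hf : IsFlatDim f r) (n n' : ℤ) (e : n' = n + r),
    IsVariety E → IsVariety B → ∀ (g : G) (x : (T.H.g 0).M B n),
    T.on g ((T.H.g 0).pll f hf e x) = (T.H.g 0).pll f hf e (T.on g x)

/-- The properties of the theory that are used. -/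
structure Theory.IsValid (T : Theory.{u, v, w} k F G) : Prop where
  homology : T.H.IsHomology
  chow : T.C.IsGood
  chowSurj : T.C.RestrictionSurjective
  point : T.Point
  cycle : T.CycleNat
  equivariance : T.Equivariant

theorem Theory.IsValid.cycleNat {T : Theory.{u, v, w} k F G} (hT : T.IsValid) :
    (∀ {Z X : Sch k} (i : Z ⟶ X) (hi : IsCl i) (n : ℤ), IsVariety X → ∀ x,
    T.cl X n (T.C.push i hi n x) = (T.H.g 0).push i hi n (T.cl Z n x)) ∧
  ∀ {E B : Sch k} (f : E ⟶ B) (r : ℕ) (hf : IsFlatDim f r) (n n' : ℤ) (e : n' = n + r),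
    IsVariety E → IsVariety B → ∀ x,
    T.cl E n' (T.C.pull f r hf n n' e x) = (T.H.g 0).pull f r hf n n' e (T.cl B n x) :=
  ⟨fun i hi n h x => hT.cycle.1 i hi n h x, fun f r hf n n' e h h' x =>
    hT.cycle.2 f r hf n n' e h h' x⟩

theorem Theory.IsValid.equivariant {T : Theory.{u, v, w} k F G} (hT : T.IsValid) :
    (∀ {Z X : Sch k} (i : Z ⟶ X) (hi : IsCl i) (n : ℤ), IsVariety X → ∀ g x,
    T.act X n g ((T.H.g 0).push i hi n x) = (T.H.g 0).push i hi n (T.act Z n g x)) ∧
  ∀ {E B : Sch k} (f : E ⟶ B) (r : ℕ) (hf : IsFlatDim f r) (n n' : ℤ) (e : n' = n + r),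
    IsVariety E → IsVariety B → ∀ g x,
    T.act E n' g ((T.H.g 0).pull f r hf n n' e x) = (T.H.g 0).pull f r hf n n' e (T.act B n g x) :=
  ⟨fun i hi n h g x => hT.equivariance.1 i hi n h g x, fun f r hf n n' e h h' g x =>
    hT.equivariance.2 f r hf n n' e h h' g x⟩

/-- The Tate conjecture for the cycles of dimension `n` on `X`: every class in `H_{2 n}(X, -n)` that is
fixed by `G` is the class of a cycle. -/
def Theory.Tate (T : Theory.{u, v, w} k F G) (X : Sch k) (n : ℤ) : Prop :=
  ∀ x : (T.H.g 0).M X n, (∀ g : G, T.on g x = x) → ∃ z : T.C.M X n, T.cls z = x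

/-- The Tate conjecture for the cycles of all dimensions on `X`. -/
def Theory.TateConj (T : Theory.{u, v, w} k F G) (X : Sch k) : Prop := ∀ n, T.Tate X n

/-- The coordinate ring of the covering `P(y) = φ` of `Spec R`. -/
abbrev Cov (P : Polynomial k) {R : Type u} [CommRing R] [Algebra k R] (φ : R) : Type u :=
  AdjoinRoot (P.map (algebraMap k R) - Polynomial.C φ)

/-- The covering `P(y) = g(x₁, …, x_M)` of the affine space of dimension `M` over `k`. -/
noncomputable def cover (P : Polynomial k) {M : ℕ} (g : MvPolynomial (Fin M) k) : Sch k :=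
  aff k (Cov P g)

end Pool.Agent.H854.AS
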