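import Pool.Agent.H854.AS.Sm

/-!
# The polynomials `y ^ p - y` and `y ^ 2 - y`
-/

set_option autoImplicit false

open CategoryTheory AlgebraicGeometry

universe u v w

namespace Pool.Agent.H854.AS

open Pool.Agent.Y138.UC

variable {k : Type u} [Field k]

variable (k) in
/-- The polynomial `y ^ m - y`. -/
noncomputable def pol (m : ℕ) : Polynomial k := Polynomial.X ^ m - Polynomial.X

theorem pol_monic {m : ℕ} (hm : 2 ≤ m) : (pol k m).Monic := by
  apply (Polynomial.monic_X_pow m).sub_of_left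
  rw [Polynomial.degree_X, Polynomial.degree_X_pow]
  exact_mod_cast hm

/-- `y ^ p - y` in characteristic `p`. -/
theorem pol_prime (p : ℕ) [hp : Fact p.Prime] [CharP k p] : HasSimpleRoots (pol k p) := by
  have h2 := hp.1.two_le
  refine ⟨pol_monic h2, 0, 1, ∑ i ∈ Finset.range (p - 1), Polynomial.X ^ i, zero_ne_one, ?_, ?_, ?_⟩
  · have h1 := mul_geom_sum (Polynomial.X : Polynomial k) (p - 1)
    rw [Polynomial.C_1, h1, Polynomial.C_0, sub_zero, mul_sub, mul_one, ← pow_succ',
      Nat.sub_add_cancel (by omega), pol]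
  · rw [Polynomial.eval_finsetSum]
    obtain ⟨m, hm⟩ : ∃ m, p - 1 = m + 1 := ⟨p - 2, by omega⟩
    rw [hm, Finset.sum_range_succ']
    simp
  · rw [Polynomial.eval_finsetSum]
    have h3 : ((p - 1 : ℕ) : k) = -1 := by
      rw [Nat.cast_sub (by omega), CharP.cast_eq_zero]
      simp
    simp only [Polynomial.eval_pow, Polynomial.eval_X, one_pow, Finset.sum_const,
      Finset.card_range, nsmul_eq_mul, mul_one]
    rw [h3]
    exact neg_ne_zero.2 one_ne_zero

/-- `y ^ 2 - y`. -/
theorem pol_two : HasSimpleRoots (pol k 2) := by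
  refine ⟨pol_monic le_rfl, 0, 1, 1, zero_ne_one, ?_, ?_, ?_⟩
  · rw [Polynomial.C_0, Polynomial.C_1, sub_zero, mul_one, pol]
    ring
  · rw [Polynomial.eval_one]
    exact one_ne_zero
  · rw [Polynomial.eval_one]
    exact one_ne_zero

theorem pol_two_coprime : IsCoprime (pol k 2) (Polynomial.derivative (pol k 2)) := by
  refine ⟨-4, 2 * Polynomial.X - 1, ?_⟩
  rw [pol, Polynomial.derivative_sub, Polynomial.derivative_X_pow, Polynomial.derivative_X]
  simp only [Nat.cast_ofNat, map_ofNat, Nat.add_one_sub_one, pow_one]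
  ring

theorem derivative_pol (p : ℕ) [Fact p.Prime] [CharP k p] :
    Polynomial.derivative (pol k p) = Polynomial.C (-1) := by
  rw [pol, Polynomial.derivative_sub, Polynomial.derivative_X_pow, Polynomial.derivative_X,
    CharP.cast_eq_zero]
  simp

/-- The coverings `y ^ p - y = φ` are smooth. -/
theorem smooth_pol (p : ℕ) [Fact p.Prime] [CharP k p] (M : ℕ) (g : MvPolynomial (Fin M) k) :
    Smooth (cover (pol k p) g).hom := by
  have h0 : Algebra.Smooth k (MvPolynomial (Fin M) k) := smooth_poly k k M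
  refine smooth_cov (pol k p) (pol_prime p).1 (pol_prime (k := k) p).pos g fun x hx => ?_
  exfalso
  rw [derivative_pol, Polynomial.map_C, AdjoinRoot.mk_C] at hx
  apply (show PrimeSpectrum (Cov (pol k p) g) from x).isPrime.ne_top
  refine Ideal.eq_top_of_isUnit_mem _ hx ?_
  exact ((isUnit_one.neg : IsUnit (-1 : k)).map (algebraMap k (MvPolynomial (Fin M) k))).map _

/-- The coverings `y ^ 2 - y = ∑ tᵢ qᵢ` are smooth. -/
theorem smooth_two {N r : ℕ} (q : Fin (r + 1) → MvPolynomial (Fin N) k) :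
    Smooth (cover (pol k 2) (cubic q)).hom := by
  have h0 : Algebra.Smooth k (MvPolynomial (Fin N) k) := smooth_poly k k N
  have h1 := smooth_covQ (pol k 2) (pol_two (k := k)).1 pol_two.pos q pol_two_coprime
  have h2 : (cover (pol k 2) (cubic q)).hom =
      (coverIso q (pol k 2)).inv.left ≫ Spec.map (CommRingCat.ofHom
        (algebraMap k (CovQ (pol k 2) q))) := (Over.w (coverIso q (pol k 2)).inv).symm
  rw [h2]
  have h3 : IsIso (coverIso q (pol k 2)).inv.left :=
    inferInstanceAs (IsIso ((Over.forget _).map (coverIso q (pol k 2)).inv))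
  have h4 : Smooth (coverIso q (pol k 2)).inv.left := inferInstance
  exact MorphismProperty.comp_mem _ _ _ h4 h1

theorem isAdmissible_cover {P : Polynomial k} (hP : HasSimpleRoots P) {M : ℕ}
    (g : MvPolynomial (Fin M) k) : IsAdmissible (cover P g) := by
  have h : IsVariety (cover P g) := isVariety_aff _ (h := finiteType_cov P hP.1 hP.pos _)
  refine ⟨h, cover P g, 𝟙 _, 0, isBun_id _, ?_, h⟩
  change IsAffine (Spec _)
  infer_instance

variable {F : Type v} [Field F] {G : Type w} [Group G] {T : Theory.{u, v, w} k F G}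

theorem isIso_covPt (P : Polynomial k) (c : k) (hPQ : P = (Polynomial.X - Polynomial.C c) * 1)
    (R : Type u) [CommRing R] [Algebra k R] :
    IsIso (Spec.map (CommRingCat.ofHom (covPt P c R (eval_zero_of_mul P 1 c hPQ)))) := by
  have h2 := covPt_spec P 1 c hPQ R (by simp)
  have h4 := h2.1
  have h5 : Set.range (Spec.map (CommRingCat.ofHom (covPt P c R
      (eval_zero_of_mul P 1 c hPQ)))) = Set.univ := by
    refine h2.2.trans (Set.eq_univ_of_forall fun x => ?_)
    change (Polynomial.aeval (AdjoinRoot.root _) 1 : Cov P (0 : R)) ∉ x.asIdeal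
    rw [map_one]
    exact (Ideal.ne_top_iff_one _).1 x.isPrime.ne_top
  rw [isIso_iff_isOpenImmersion_and_surjective]
  exact ⟨h4, ⟨Set.range_eq_univ.1 h5⟩⟩

/-- The equivalence for the coverings `y ^ 2 - y = ∑ tᵢ qᵢ`. -/
theorem Theory.IsValid.tate_two_iff (hT : T.IsValid) {N r : ℕ}
    (q : Fin (r + 1) → MvPolynomial (Fin N) k) (n : ℤ) (hn : n ≠ N) :
    T.Tate (aff k (CovQ (pol k 2) q)) (n + (r + 1 : ℕ)) ↔ T.Tate (aff k (Az q)) n := by
  refine ⟨hT.tate_zeros q pol_two n hn, fun h => ?_⟩
  have hPQ : pol k 2 = (Polynomial.X - Polynomial.C 0) * (Polynomial.X - Polynomial.C 1) := by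
    rw [Polynomial.C_0, Polynomial.C_1, sub_zero, pol]
    ring
  have hQm : (Polynomial.X - Polynomial.C (1 : k)).Monic := Polynomial.monic_X_sub_C 1
  have hdQ : 0 < (Polynomial.X - Polynomial.C (1 : k)).natDegree := by
    rw [Polynomial.natDegree_X_sub_C]
    exact one_pos
  have cfg := config (pol k 2) _ (pol_two (k := k)).1 pol_two.pos 0 hPQ (by simp) q hdQ hQm
  refine cfg.tate_conv hT n (n + (r + 1 : ℕ)) rfl (hT.space N 0 n (by omega)) ?_
  have hQ1 : (Polynomial.X - Polynomial.C (1 : k)) = (Polynomial.X - Polynomial.C 1) * 1 :=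
    (mul_one _).symm
  have h1 : T.Tate (aff k (At (Az q) r)) (n + (r + 1 : ℕ)) :=
    hT.tate_bundle (isAffineBundle_triv (Az q) (r + 1)) (isVariety_aff _) (isVariety_aff _) n _
      rfl h
  have h3 : IsIso (affMap (covPt (Polynomial.X - Polynomial.C (1 : k)) 1
      (At (Az q) r) (eval_zero_of_mul _ 1 1 hQ1)) (covPt_alg (k := k) _ _ _ _)).left :=
    isIso_covPt _ _ hQ1 _
  exact hT.tate_of_bundle (b := affMap (covPt (Polynomial.X - Polynomial.C (1 : k)) 1
      (At (Az q) r) (eval_zero_of_mul _ 1 1 hQ1)) (covPt_alg _ _ _ _)) (d := 0)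
    (isAffineBundle_of_isIso _) (isVariety_aff _)
    (isVariety_aff _ (h := finiteType_cov _ hQm hdQ _)) _ _ (by simp) h1

end Pool.Agent.H854.AS
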