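import Pool.Agent.H854.AS.Alg2
import Pool.Agent.H854.AS.Abs

/-!
# The geometry of the coverings `P(y) = ∑ tᵢ qᵢ`
-/

set_option autoImplicit false

open CategoryTheory AlgebraicGeometry PrimeSpectrum

universe u v w

namespace Pool.Agent.H854.AS

open Pool.Agent.Y138.UC

variable {k : Type u} [Field k]

section Restrict

variable {A R R' : Type u} [CommRing A] [Algebra k A] [CommRing R] [Algebra k R] [CommRing R']
  [Algebra k R'] (g : A →+* R) (hg : g.comp (algebraMap k A) = algebraMap k R) (g1 : R →+* R')
  (hg1 : g1.comp (algebraMap k R) = algebraMap k R') (g2 : A →+* R') (e : g1.comp g = g2)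
  (hg2 : g2.comp (algebraMap k A) = algebraMap k R')
  (U : (Spec (.of A)).Opens)

/-- The inverse image of an open subset. -/
noncomputable abbrev pre (g : A →+* R) (U : (Spec (.of A)).Opens) : (Spec (.of R)).Opens :=
  Spec.map (CommRingCat.ofHom g) ⁻¹ᵁ U

/-- The restriction of a morphism to an open subset of the target. -/
noncomputable def resM : opn (aff k R) (pre g U) ⟶ opn (aff k A) U :=
  Over.homMk (Spec.map (CommRingCat.ofHom g) ∣_ U) (by
    change (Spec.map (CommRingCat.ofHom g) ∣_ U) ≫ U.ι ≫
      Spec.map (CommRingCat.ofHom (algebraMap k A)) =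
      (pre g U).ι ≫ Spec.map (CommRingCat.ofHom (algebraMap k R))
    rw [← Category.assoc, morphismRestrict_ι, Category.assoc, ← Spec.map_comp,
      ← CommRingCat.ofHom_comp, hg])

theorem resM_ι : (resM (k := k) g hg U).left ≫ U.ι = (pre g U).ι ≫ Spec.map (CommRingCat.ofHom g) :=
  morphismRestrict_ι _ _

theorem resM_cart : IsCart (opnι (aff k R) (pre g U)) (resM g hg U) (affMap g hg)
    (opnι (aff k A) U) :=
  (isPullback_morphismRestrict (Spec.map (CommRingCat.ofHom g)) U).flip

include e in
theorem pre_range : Set.range ((pre g2 U).ι ≫ Spec.map (CommRingCat.ofHom g1)) ⊆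
    Set.range (pre g U).ι := by
  rintro _ ⟨x, rfl⟩
  rw [Scheme.Opens.range_ι]
  have h1 := x.2
  subst e
  exact h1

/-- The restriction of a morphism to the inverse images of an open subset. -/
noncomputable def lftL : (pre g2 U).toScheme ⟶ (pre g U).toScheme :=
  IsOpenImmersion.lift (pre g U).ι ((pre g2 U).ι ≫ Spec.map (CommRingCat.ofHom g1))
    (pre_range g g1 g2 e U)

theorem lftL_fac : lftL g g1 g2 e U ≫ (pre g U).ι =
    (pre g2 U).ι ≫ Spec.map (CommRingCat.ofHom g1) :=
  IsOpenImmersion.lift_fac _ _ _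

/-- The restriction of a morphism between two schemes over `Spec A` to the inverse images of an open
subset. -/
noncomputable def lftM : opn (aff k R') (pre g2 U) ⟶ opn (aff k R) (pre g U) :=
  Over.homMk (lftL g g1 g2 e U) (by
    change lftL g g1 g2 e U ≫ (pre g U).ι ≫
      Spec.map (CommRingCat.ofHom (algebraMap k R)) =
      (pre g2 U).ι ≫ Spec.map (CommRingCat.ofHom (algebraMap k R'))
    rw [← Category.assoc, lftL_fac, Category.assoc, ← Spec.map_comp,
      ← CommRingCat.ofHom_comp, hg1])

theorem lftL_resM : lftL g g1 g2 e U ≫ (Spec.map (CommRingCat.ofHom g) ∣_ U) =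
    (Spec.map (CommRingCat.ofHom g2) ∣_ U) := by
  rw [← cancel_mono U.ι, Category.assoc, morphismRestrict_ι, morphismRestrict_ι, ← Category.assoc,
    lftL_fac, Category.assoc, ← Spec.map_comp, ← CommRingCat.ofHom_comp, e]

theorem lftM_resM : lftM g g1 hg1 g2 e U ≫ resM g hg U = resM g2 hg2 U :=
  Over.OverMorphism.ext (lftL_resM g g1 g2 e U)

theorem lftL_isPullback : IsPullback (lftL g g1 g2 e U) (pre g2 U).ι
    (pre g U).ι (Spec.map (CommRingCat.ofHom g1)) := by
  apply IsOpenImmersion.isPullback
  · exact (lftL_fac _ _ _ _ _).symm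
  · subst e
    simp only [Scheme.Opens.opensRange_ι]
    rfl

theorem lftL_flat (h : Flat (Spec.map (CommRingCat.ofHom g1))) :
    Flat (lftL g g1 g2 e U) :=
  MorphismProperty.of_isPullback (P := @Flat) (lftL_isPullback g g1 g2 e U).flip h

theorem lftL_finite (h : IsFinite (Spec.map (CommRingCat.ofHom g1))) :
    IsFinite (lftL g g1 g2 e U) :=
  MorphismProperty.of_isPullback (P := @IsFinite) (lftL_isPullback g g1 g2 e U).flip h

end Restrict

section Poly

variable {A : Type u} [CommRing A] [Algebra k A] (U : (Spec (.of A)).Opens) (r : ℕ)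

attribute [local instance] MvPolynomial.algebraMvPolynomial

/-- The polynomial ring is locally trivial. -/
theorem loc_poly : ∀ x ∈ U, ∃ a : A, x ∈ basicOpen a ∧
      (basicOpen a : Set (PrimeSpectrum A)) ⊆ (U : Set (Spec (.of A))) ∧
      ∃ θ : MvPolynomial (Fin r) A →+* MvPolynomial (Fin r) (Localization.Away a),
        IsOpenImmersion (Spec.map (CommRingCat.ofHom θ)) ∧
        Set.range (Spec.map (CommRingCat.ofHom θ)) =
          (basicOpen (MvPolynomial.C a : MvPolynomial (Fin r) A) :
            Set (PrimeSpectrum (MvPolynomial (Fin r) A))) ∧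
        θ.comp MvPolynomial.C = MvPolynomial.C.comp (algebraMap A (Localization.Away a)) := by
  intro x hx
  obtain ⟨_, ⟨a, rfl⟩, hxa, haU⟩ :=
    PrimeSpectrum.isTopologicalBasis_basic_opens.exists_subset_of_mem_open hx U.isOpen
  refine ⟨a, hxa, haU, MvPolynomial.map (algebraMap A (Localization.Away a)), ?_⟩
  have h0 : IsLocalization.Away (MvPolynomial.C a : MvPolynomial (Fin r) A)
      (MvPolynomial (Fin r) (Localization.Away a)) := by
    have h1 := MvPolynomial.isLocalization (σ := Fin r) (Submonoid.powers a) (Localization.Away a)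
    rw [Submonoid.map_powers] at h1
    exact h1
  have h2 : MvPolynomial.map (algebraMap A (Localization.Away a)) =
      algebraMap (MvPolynomial (Fin r) A) (MvPolynomial (Fin r) (Localization.Away a)) := rfl
  refine ⟨?_, ?_, ?_⟩
  · rw [h2]
    exact IsOpenImmersion.of_isLocalization (MvPolynomial.C a : MvPolynomial (Fin r) A)
  · rw [h2]
    exact PrimeSpectrum.localization_away_comap_range _ (MvPolynomial.C a)
  · refine RingHom.ext fun y => ?_
    exact MvPolynomial.map_C _ y

theorem isBun_resM_poly : IsBun (resM (k := k) (MvPolynomial.C : A →+* MvPolynomial (Fin r) A) rfl U)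
    r := by
  refine isAffineBundle_of_local (MvPolynomial.C : A →+* MvPolynomial (Fin r) A) U
    (pre MvPolynomial.C U).ι _ (resM_ι _ _ _) ?_ r (loc_poly U r)
  rw [Scheme.Opens.range_ι]
  rfl

end Poly

section Covering

variable (P Q : Polynomial k) (hP : P.Monic) (hd : 0 < P.natDegree) (c : k)
  (hPQ : P = (Polynomial.X - Polynomial.C c) * Q) (hQ : Q.eval c ≠ 0)
  {A : Type u} [CommRing A] [Algebra k A] {r : ℕ}

/-- The structure map of the coordinate ring of a covering of an affine space over `Spec A`. -/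
noncomputable def piR (φ : At A r) : A →+* Cov P φ := (AdjoinRoot.of _).comp MvPolynomial.C

/-- The structure map of a covering of an affine space over `Spec A`. -/
noncomputable def piM (φ : At A r) : aff k (Cov P φ) ⟶ aff k A := affMap (piR P φ) rfl

include hP hd in
theorem isFlatDim_piM (φ : At A r) : IsFlatDim (piM P φ) (r + 1) := by
  have h1 := cov_finite P φ hP hd
  refine ⟨aff k (At A r), affMap (AdjoinRoot.of _) rfl, triv A (r + 1),
    isAffineBundle_triv A (r + 1), cov_flat P φ hP hd, ?_, ?_⟩
  · change LocallyQuasiFinite (Spec.map (CommRingCat.ofHom (AdjoinRoot.of _)))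
    infer_instance
  · refine Over.OverMorphism.ext ?_
    change Spec.map (CommRingCat.ofHom (AdjoinRoot.of _)) ≫
      Spec.map (CommRingCat.ofHom MvPolynomial.C) = Spec.map (CommRingCat.ofHom (piR P φ))
    rw [← Spec.map_comp, ← CommRingCat.ofHom_comp]
    rfl

include hP hd in
theorem finiteType_cov {R : Type u} [CommRing R] [Algebra k R] [Algebra.FiniteType k R] (φ : R) :
    Algebra.FiniteType k (Cov P φ) := by
  have h := (covPoly_monic P φ hP hd).finite_adjoinRoot
  have h2 : Algebra.FiniteType R (Cov P φ) := inferInstance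
  exact Algebra.FiniteType.trans (S := R) inferInstance h2

variable (q : Fin (r + 1) → A)

include hP hd in
theorem isFlatDim_resM (U : (Spec (.of A)).Opens) (φ : At A r) :
    IsFlatDim (resM (k := k) (piR P φ) rfl U) (r + 1) := by
  have h1 := cov_finite P φ hP hd
  have h3 := lftL_finite (MvPolynomial.C : A →+* At A r)
    (AdjoinRoot.of (P.map (algebraMap k (At A r)) - Polynomial.C φ)) (piR P φ) rfl U h1
  refine ⟨opn (aff k (At A r)) (pre MvPolynomial.C U),
    lftM MvPolynomial.C (AdjoinRoot.of _) rfl (piR P φ) rfl U,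
    resM MvPolynomial.C rfl U, isBun_resM_poly U (r + 1),
    lftL_flat (MvPolynomial.C : A →+* At A r)
    (AdjoinRoot.of (P.map (algebraMap k (At A r)) - Polynomial.C φ)) (piR P φ) rfl U
    (cov_flat P φ hP hd), ?_, lftM_resM _ _ _ _ _ _ _ _⟩
  change LocallyQuasiFinite (lftL (MvPolynomial.C : A →+* At A r)
    (AdjoinRoot.of (P.map (algebraMap k (At A r)) - Polynomial.C φ)) (piR P φ) rfl U)
  infer_instance

theorem pre_opU : pre (MvPolynomial.C : A →+* Ay A) (opU q) = opU (qy q) := by
  refine TopologicalSpace.Opens.ext (Set.ext fun x => ?_)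
  have h1 : x ∈ pre (MvPolynomial.C : A →+* Ay A) (opU q) ↔
      PrimeSpectrum.comap (MvPolynomial.C : A →+* Ay A) x ∈ opU q := Iff.rfl
  refine h1.trans ?_
  refine Iff.trans ?_ (mem_opU (qy q) x).symm
  rw [mem_opU]
  rfl

theorem strY_comp : (strY P q).comp MvPolynomial.C = piR P (phi q) :=
  RingHom.ext fun x => strY_C P q x

/-- Over the complement of the common zeros of the `qᵢ` the covering is a bundle over a line. -/
noncomputable def aM : opn (aff k (CovQ P q)) (pre (piR P (phi q)) (opU q)) ⟶
    opn (aff k (Ay A)) (pre MvPolynomial.C (opU q)) :=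
  lftM MvPolynomial.C (strY P q) (strY_alg P q) (piR P (phi q)) (strY_comp P q) (opU q)

theorem isBun_aM : IsBun (aM P q) r := by
  refine isAffineBundle_of_local (strY P q) (pre MvPolynomial.C (opU q))
    (pre (piR P (phi q)) (opU q)).ι
    (lftL MvPolynomial.C (strY P q) (piR P (phi q)) (strY_comp P q) (opU q))
    (lftL_fac MvPolynomial.C (strY P q) (piR P (phi q)) (strY_comp P q) (opU q)) ?_ r ?_
  · rw [Scheme.Opens.range_ι]
    have h1 := strY_comp P q
    rw [← h1]
    rfl
  · intro x hx
    rw [pre_opU] at hx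
    obtain ⟨a, h1, h2, h3⟩ := loc_trivQ P q x hx
    refine ⟨a, h1, ?_, h3⟩
    rw [pre_opU]
    exact h2

/-- The quotient by the `qᵢ`. -/
abbrev Az : Type u := A ⧸ Ideal.span (Set.range q)

/-- Reduction modulo the `qᵢ`. -/
noncomputable def redT : At A r →+* At (Az q) r :=
  MvPolynomial.map (Ideal.Quotient.mk (Ideal.span (Set.range q)))

theorem redT_alg : (redT q).comp (algebraMap k (At A r)) = algebraMap k (At (Az q) r) :=
  RingHom.ext fun x => MvPolynomial.map_C _ (algebraMap k A x)

theorem redT_phi : redT q (phi q) = 0 := by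
  rw [map_phi]
  refine Finset.sum_eq_zero fun i _ => ?_
  rw [redT, MvPolynomial.map_C, mk_q, map_zero, zero_mul]

theorem redT_surjective : Function.Surjective (redT q) :=
  MvPolynomial.map_surjective _ Ideal.Quotient.mk_surjective

/-- The restriction of the covering to the common zeros of the `qᵢ`. -/
noncomputable def redC : CovQ P q →+* Cov P (0 : At (Az q) r) :=
  covMap P (redT q) (redT_alg q) (phi q) 0 (redT_phi q)

theorem redC_alg : (redC P q).comp (algebraMap k (CovQ P q)) =
    algebraMap k (Cov P (0 : At (Az q) r)) := covMap_alg _ _ _ _ _ _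

theorem redC_surjective : Function.Surjective (redC P q) :=
  covMap_surjective _ _ _ _ _ _ (redT_surjective q)

theorem redC_comp : (redC P q).comp (piR P (phi q)) =
    (piR P (0 : At (Az q) r)).comp (Ideal.Quotient.mk (Ideal.span (Set.range q))) := by
  refine RingHom.ext fun x => ?_
  rw [RingHom.comp_apply, piR, RingHom.comp_apply, redC, covMap_of, redT, MvPolynomial.map_C]
  rfl

theorem redC_ker : RingHom.ker (redC P q) =
    (Ideal.span (Set.range q)).map (piR P (phi q)) := by
  apply le_antisymm
  · refine (covMap_ker P (redT q) (redT_alg q) (phi q) 0 (redT_phi q)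
      (redT_surjective q)).trans ?_
    rw [redT, MvPolynomial.ker_map, Ideal.mk_ker, Ideal.map_map]
    exact le_rfl
  · rw [Ideal.map_le_iff_le_comap, Ideal.span_le]
    rintro _ ⟨i, rfl⟩
    have h1 := RingHom.congr_fun (redC_comp P q) (q i)
    change redC P q (piR P (phi q) (q i)) = 0
    refine h1.trans ?_
    rw [RingHom.comp_apply, mk_q, map_zero]

theorem mem_pre (x : PrimeSpectrum (CovQ P q)) : x ∈ pre (piR P (phi q)) (opU q) ↔
    ¬ (RingHom.ker (redC P q) : Set (CovQ P q)) ⊆ x.asIdeal := by
  have h1 : x ∈ pre (piR P (phi q)) (opU q) ↔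
      PrimeSpectrum.comap (piR P (phi q)) x ∈ opU q := Iff.rfl
  rw [h1, mem_opU_iff, redC_ker, SetLike.coe_subset_coe, SetLike.coe_subset_coe,
    Ideal.map_le_iff_le_comap]
  rfl

theorem redC_cart : IsCart (affMap (redC P q) (redC_alg P q)) (piM P (0 : At (Az q) r))
    (piM P (phi q)) (affMap (Ideal.Quotient.mk (Ideal.span (Set.range q))) rfl) := by
  have h := isPushout_of_surjective (piR P (phi q)) (Ideal.Quotient.mk (Ideal.span (Set.range q)))
    (redC P q) (piR P (0 : At (Az q) r)) (redC_comp P q) Ideal.Quotient.mk_surjective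
    (redC_surjective P q) (by rw [redC_ker, Ideal.mk_ker])
  exact isPullback_SpecMap_of_isPushout _ _ _ _ h

include hP hd hPQ hQ in
/-- The configuration. -/
theorem config [Algebra.FiniteType k A] (hd' : 0 < Q.natDegree) (hQm : Q.Monic) :
    Config (affMap (Ideal.Quotient.mk (Ideal.span (Set.range q))) rfl) (opnι (aff k A) (opU q))
      (affMap (redC P q) (redC_alg P q))
      (opnι (aff k (CovQ P q)) (pre (piR P (phi q)) (opU q)))
      (piM P (phi q)) (piM P (0 : At (Az q) r)) (resM (piR P (phi q)) rfl (opU q))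
      (affMap (covDiv P Q c hPQ (At (Az q) r)) (covDiv_alg _ _ _ _ _))
      (affMap (covPt P c (At (Az q) r) (eval_zero_of_mul P Q c hPQ)) (covPt_alg _ _ _ _))
      (triv (Az q) (r + 1)) (aM P q) (resM (MvPolynomial.C : A →+* Ay A) rfl (opU q))
      (r + 1) 1 r where
  hS := compl_X q
  hY := isComplement_opn _ _ (redC_surjective P q) _ (mem_pre P q)
  hπ := isFlatDim_piM P hP hd _
  hπC := isFlatDim_piM P hP hd _
  hπV := isFlatDim_resM P hP hd _ _
  cC := redC_cart P q
  cV := resM_cart _ _ _
  hC := isComplement_aff _ _ _ _ (covDiv_surjective _ _ _ _ _) _ (covDiv_ker _ _ _ _ _)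
    (covPt_spec P Q c hPQ _ hQ).1 (covPt_spec P Q c hPQ _ hQ).2
  hb0 := isAffineBundle_triv _ _
  e0 := by
    refine Over.OverMorphism.ext ?_
    change Spec.map (CommRingCat.ofHom (covPt P c (At (Az q) r) _)) ≫
      Spec.map (CommRingCat.ofHom (piR P (0 : At (Az q) r))) =
      Spec.map (CommRingCat.ofHom MvPolynomial.C)
    rw [← Spec.map_comp, ← CommRingCat.ofHom_comp]
    congr 2
    refine RingHom.ext fun x => ?_
    rw [RingHom.comp_apply, piR, RingHom.comp_apply, covPt_of]
  ha := isBun_aM P q
  hb := isBun_resM_poly _ 1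
  hab := lftM_resM _ _ _ _ _ _ _ _
  hd := by ring
  vZ := isVariety_aff _
  vS := isVariety_aff _
  vB := isVariety_opn (isVariety_aff _) _
  vC := isVariety_aff _ (h := finiteType_cov P hP hd _)
  vY := isVariety_aff _ (h := finiteType_cov P hP hd _)
  vV := isVariety_opn (isVariety_aff _ (h := finiteType_cov P hP hd _)) _
  vC' := isVariety_aff _ (h := finiteType_cov Q hQm hd' _)
  vC0 := isVariety_aff _
  vB' := isVariety_opn (isVariety_aff _) _

end Covering

end Pool.Agent.H854.AS
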