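import Pool.Agent.H854.AS.Geo
import Pool.Graph.R_pool_sql_team_seeded_1acbe0a2.Y138.UC.Pres
import Pool.Graph.R_pool_sql_team_seeded_1acbe0a2.Y138.UC.Iso

/-!
# The reduction of the Tate conjecture to the coverings `P(y) = g(x)`
-/

set_option autoImplicit false

open CategoryTheory AlgebraicGeometry

universe u v w

namespace Pool.Agent.H854.AS

open Pool.Agent.Y138.UC

variable {k : Type u} [Field k] {F : Type v} [Field F] {G : Type w} [Group G]
  {T : Theory.{u, v, w} k F G}

/-- The Tate conjecture and isomorphisms. -/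
theorem Theory.IsValid.tate_iso (hT : T.IsValid) {X Y : Sch k} (e : X ≅ Y) (vX : IsVariety X)
    (vY : IsVariety Y) (n : ℤ) (h : T.Tate X n) : T.Tate Y n := by
  have h1 : IsIso e.hom.left := inferInstanceAs (IsIso ((Over.forget _).map e.hom))
  exact hT.tate_of_bundle (b := e.hom) (d := 0) (isAffineBundle_of_isIso _) vX vY n n (by simp) h

/-- The homology of affine space. -/
theorem Theory.IsValid.space (hT : T.IsValid) (N : ℕ) (m n : ℤ) (h : m + 2 * (n - N) ≠ 0) :
    Subsingleton ((T.H.g m).M (aff k (MvPolynomial (Fin N) k)) n) := by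
  have h1 := hT.point.1 m (n - N) h
  exact ((hT.homology.good m).bundleSurj (triv k N) N (.of_bun (isAffineBundle_triv k N)) (n - N) n
    (by ring) (isVariety_aff _) (isVariety_aff _) (isAffineBundle_triv k N)).subsingleton

/-- The cycles on affine space. -/
theorem Theory.IsValid.space_chow (hT : T.IsValid) (N : ℕ) (n : ℤ) (h : n ≠ N) :
    Subsingleton (T.C.M (aff k (MvPolynomial (Fin N) k)) n) := by
  have h1 := hT.point.2 (n - N) (by omega)
  exact (hT.chow.bundleSurj (triv k N) N (.of_bun (isAffineBundle_triv k N)) (n - N) n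
    (by ring) (isVariety_aff _) (isVariety_aff _) (isAffineBundle_triv k N)).subsingleton

/-- `P` is monic and has two different roots in `k`, which are simple. -/
def HasSimpleRoots (P : Polynomial k) : Prop :=
  P.Monic ∧ ∃ (c c' : k) (Q : Polynomial k), c ≠ c' ∧
    P = (Polynomial.X - Polynomial.C c) * ((Polynomial.X - Polynomial.C c') * Q) ∧
    Q.eval c ≠ 0 ∧ Q.eval c' ≠ 0

section

variable {N r : ℕ} (q : Fin (r + 1) → MvPolynomial (Fin N) k)

theorem natDegree_pos_of_mul {c : k} {Q : Polynomial k} (hQ : Q ≠ 0) :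
    0 < ((Polynomial.X - Polynomial.C c) * Q).natDegree := by
  rw [Polynomial.natDegree_mul (Polynomial.X_sub_C_ne_zero c) hQ, Polynomial.natDegree_X_sub_C]
  omega

/-- The Tate conjecture for a covering implies the Tate conjecture for the common zeros of the
`qᵢ`. -/
theorem Theory.IsValid.tate_zeros (hT : T.IsValid) {P : Polynomial k} (hP : HasSimpleRoots P)
    (n : ℤ) (hn : n ≠ N) (h : T.Tate (aff k (CovQ P q)) (n + (r + 1 : ℕ))) :
    T.Tate (aff k (Az q)) n := by
  obtain ⟨hPm, c, c', Q, hc, hPQ, hQc, hQc'⟩ := hP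
  have hQ0 : Q ≠ 0 := by
    rintro rfl
    simp at hQc
  have hQm : ((Polynomial.X - Polynomial.C c') * Q).Monic := by
    rw [hPQ] at hPm
    exact (Polynomial.monic_X_sub_C c).of_mul_monic_left hPm
  have hQ1 : ((Polynomial.X - Polynomial.C c') * Q).eval c ≠ 0 := by
    rw [Polynomial.eval_mul, Polynomial.eval_sub, Polynomial.eval_X, Polynomial.eval_C]
    exact mul_ne_zero (sub_ne_zero.2 hc) hQc
  have hdQ : 0 < ((Polynomial.X - Polynomial.C c') * Q).natDegree := natDegree_pos_of_mul hQ0
  have hdP : 0 < P.natDegree := by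
    rw [hPQ]
    exact natDegree_pos_of_mul (mul_ne_zero (Polynomial.X_sub_C_ne_zero c') hQ0)
  have cfg := config P _ hPm hdP c hPQ hQ1 q hdQ hQm
  have h1 := cfg.tate_of hT n (n + (r + 1 : ℕ)) rfl (hT.space_chow N n hn) h
  have h2 := covPt_spec ((Polynomial.X - Polynomial.C c') * Q) Q c' rfl (At (Az q) r) hQc'
  refine hT.tate_of_open (j := affMap (covPt _ c' (At (Az q) r)
    (eval_zero_of_mul _ Q c' rfl)) (covPt_alg _ _ _ _)) h2.1
    (isFlatDim_piM _ hQm hdQ (0 : At (Az q) r)) (isAffineBundle_triv (Az q) (r + 1)) ?_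
    (isVariety_aff _) (isVariety_aff _ (h := finiteType_cov _ hQm hdQ _)) (isVariety_aff _) n _
    rfl h1
  refine Over.OverMorphism.ext ?_
  change Spec.map (CommRingCat.ofHom (covPt _ c' (At (Az q) r) _)) ≫
    Spec.map (CommRingCat.ofHom (piR _ (0 : At (Az q) r))) =
    Spec.map (CommRingCat.ofHom MvPolynomial.C)
  rw [← Spec.map_comp, ← CommRingCat.ofHom_comp]
  congr 2
  refine RingHom.ext fun x => ?_
  rw [RingHom.comp_apply, piR, RingHom.comp_apply, covPt_of]

end

section Cubic

variable {R R' : Type u} [CommRing R] [Algebra k R] [CommRing R'] [Algebra k R']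

theorem equiv_alg (e : R ≃ₐ[k] R') : (e : R →+* R').comp (algebraMap k R) = algebraMap k R' :=
  RingHom.ext fun x => e.commutes x

theorem covMap_comp (P : Polynomial k) (e : R →+* R') (he : e.comp (algebraMap k R) =
    algebraMap k R') (e' : R' →+* R) (he' : e'.comp (algebraMap k R') = algebraMap k R) (φ : R)
    (φ' : R') (h : e φ = φ') (h' : e' φ' = φ) (hee : e'.comp e = RingHom.id R) :
    (covMap P e' he' φ' φ h').comp (covMap P e he φ φ' h) = RingHom.id _ := by
  apply cov_hom_ext
  · intro x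
    rw [RingHom.comp_apply, covMap_of, covMap_of, RingHom.id_apply]
    congr 1
    exact RingHom.congr_fun hee x
  · rw [RingHom.comp_apply, covMap_root, covMap_root, RingHom.id_apply]

/-- Coverings of isomorphic affine schemes. -/
noncomputable def covEquiv (P : Polynomial k) (e : R ≃ₐ[k] R') (φ : R) :
    Cov P φ ≃ₐ[k] Cov P (e φ) :=
  AlgEquiv.ofRingEquiv (f := RingEquiv.ofRingHom
    (covMap P (e : R →+* R') (equiv_alg e) φ (e φ) rfl)
    (covMap P (e.symm : R' →+* R) (equiv_alg e.symm) (e φ) φ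
      (e.symm_apply_apply φ))
    (covMap_comp _ _ _ _ _ _ _ _ _ (RingHom.ext fun x => e.apply_symm_apply x))
    (covMap_comp _ _ _ _ _ _ _ _ _ (RingHom.ext fun x => e.symm_apply_apply x)))
    (fun x => RingHom.congr_fun
      (covMap_alg P (e : R →+* R') (equiv_alg e) φ (e φ) rfl) x)

/-- The polynomial ring in two sets of variables. -/
noncomputable def polyEquiv (k : Type u) [Field k] (N r : ℕ) :
    MvPolynomial (Fin (r + 1)) (MvPolynomial (Fin N) k) ≃ₐ[k] MvPolynomial (Fin (r + 1 + N)) k :=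
  (MvPolynomial.sumAlgEquiv k (Fin (r + 1)) (Fin N)).symm.trans
    (MvPolynomial.renameEquiv k finSumFinEquiv)

variable {N r : ℕ} (q : Fin (r + 1) → MvPolynomial (Fin N) k)

/-- The polynomial `∑ tᵢ qᵢ(x)`. -/
noncomputable def cubic : MvPolynomial (Fin (r + 1 + N)) k := polyEquiv k N r (phi q)

theorem sum_symm_C (p : MvPolynomial (Fin N) k) :
    (MvPolynomial.sumAlgEquiv k (Fin (r + 1)) (Fin N)).symm (MvPolynomial.C p) =
      MvPolynomial.rename Sum.inr p := by
  rw [AlgEquiv.symm_apply_eq]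
  have h1 : ((MvPolynomial.sumAlgEquiv k (Fin (r + 1)) (Fin N)).toAlgHom.comp
      (MvPolynomial.rename Sum.inr)).toRingHom = (MvPolynomial.C : MvPolynomial (Fin N) k →+*
        MvPolynomial (Fin (r + 1)) (MvPolynomial (Fin N) k)) := by
    apply MvPolynomial.ringHom_ext
    · intro x
      simp
    · intro x
      simp
  exact (RingHom.congr_fun h1 p).symm

theorem totalDegree_cubic (hq : ∀ i, (q i).totalDegree ≤ 2) : (cubic q).totalDegree ≤ 3 := by
  rw [cubic, polyEquiv, AlgEquiv.trans_apply]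
  refine (MvPolynomial.totalDegree_rename_le _ _).trans ?_
  have h1 : (MvPolynomial.sumAlgEquiv k (Fin (r + 1)) (Fin N)).symm (phi q) =
      ∑ i, MvPolynomial.rename Sum.inr (q i) * MvPolynomial.X (Sum.inl i) := by
    have h2 := map_phi q ((MvPolynomial.sumAlgEquiv k (Fin (r + 1)) (Fin N)).symm :
      MvPolynomial (Fin (r + 1)) (MvPolynomial (Fin N) k) →+*
        MvPolynomial (Fin (r + 1) ⊕ Fin N) k)
    refine h2.trans (Finset.sum_congr rfl fun i _ => ?_)
    congr 1
    · exact sum_symm_C (q i)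
    · change (MvPolynomial.sumAlgEquiv k (Fin (r + 1)) (Fin N)).symm (MvPolynomial.X i) = _
      rw [AlgEquiv.symm_apply_eq]
      simp
  rw [h1]
  refine MvPolynomial.totalDegree_finsetSum_le fun i _ => ?_
  refine (MvPolynomial.totalDegree_mul _ _).trans ?_
  have h3 := (MvPolynomial.totalDegree_rename_le (Sum.inr : Fin N → Fin (r + 1) ⊕ Fin N)
    (q i)).trans (hq i)
  have h4 : (MvPolynomial.X (Sum.inl i) : MvPolynomial (Fin (r + 1) ⊕ Fin N) k).totalDegree ≤ 1 :=
    (MvPolynomial.totalDegree_X _).le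
  omega

/-- The covering as a covering of an affine space over `k`. -/
noncomputable def coverIso (P : Polynomial k) : aff k (CovQ P q) ≅ cover P (cubic q) :=
  affIso (covEquiv P (polyEquiv k N r) (phi q))

end Cubic

/-- The schemes of finite type over `k` that admit an affine bundle with affine total space; by
Jouanolou these include all quasi-projective schemes. -/
def IsAdmissible (X : Sch k) : Prop :=
  IsVariety X ∧ ∃ (E : Sch k) (f : E ⟶ X) (r : ℕ), IsBun f r ∧ IsAffine E.left ∧ IsVariety E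

theorem HasSimpleRoots.pos {P : Polynomial k} (hP : HasSimpleRoots P) : 0 < P.natDegree := by
  obtain ⟨hPm, c, c', Q, hc, hPQ, hQc, hQc'⟩ := hP
  have hQ0 : Q ≠ 0 := by
    rintro rfl
    simp at hQc
  rw [hPQ]
  exact natDegree_pos_of_mul (mul_ne_zero (Polynomial.X_sub_C_ne_zero c') hQ0)

/-- The reduction. -/
theorem Theory.IsValid.reduction (hT : T.IsValid) {P : Polynomial k} (hP : HasSimpleRoots P)
    (h : ∀ (N r : ℕ) (q : Fin (r + 1) → MvPolynomial (Fin N) k),
      (∀ i, (q i).totalDegree ≤ 2) → T.TateConj (cover P (cubic q)))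
    (X : Sch k) (hX : IsAdmissible X) : T.TateConj X := by
  intro n
  obtain ⟨vX, E, f, d, hf, hE, vE⟩ := hX
  obtain ⟨B, _, _, hB, ⟨eB⟩⟩ := exists_aff_iso E vE
  refine hT.tate_of_bundle hf vE vX n (n + d) rfl ?_
  refine hT.tate_iso eB (isVariety_aff _) vE _ ?_
  obtain ⟨N, r, q, hN, hq, ⟨eq⟩⟩ := exists_presentation k B ((n + d).toNat + 1)
  refine hT.tate_iso (affIso eq) (isVariety_aff _) (isVariety_aff _) _ ?_
  have hn : n + d ≠ N := by
    have := Int.self_le_toNat (n + d)
    omega
  refine hT.tate_zeros q hP _ hn ?_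
  have h1 : Algebra.FiniteType k (CovQ P q) := finiteType_cov P hP.1 hP.pos _
  have h2 : IsVariety (cover P (cubic q)) :=
    isVariety_aff _ (h := finiteType_cov P hP.1 hP.pos _)
  exact hT.tate_iso (coverIso q P).symm h2 (isVariety_aff _) _ (h N r q hq _)

end Pool.Agent.H854.AS
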