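import Pool.Agent.H854.AS.Main

/-!
# Smoothness of the coverings
-/

set_option autoImplicit false

open CategoryTheory AlgebraicGeometry

universe u v w

namespace Pool.Agent.H854.AS

open Pool.Agent.Y138.UC

theorem smooth_of_forall {X S : Scheme.{u}} (f : X ⟶ S)
    (H : ∀ x : X, ∃ (W : Scheme.{u}) (j : W ⟶ X), IsOpenImmersion j ∧ x ∈ Set.range j ∧
      Smooth (j ≫ f)) : Smooth f := by
  choose W j h1 h2 h3 using H
  have : IsZariskiLocalAtSource (@Smooth.{u}) :=
    HasRingHomProperty.instIsZariskiLocalAtSource (Q := RingHom.Smooth)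
  exact IsZariskiLocalAtSource.of_openCover (P := @Smooth)
    (Scheme.Cover.mkOfCovers X W j (fun x => ⟨x, h2 x⟩) h1) h3

variable {k : Type u} [Field k]

theorem smooth_poly (R A : Type u) [CommRing R] [CommRing A] [Algebra R A] [Algebra.Smooth R A]
    (n : ℕ) : Algebra.Smooth R (MvPolynomial (Fin n) A) := by
  have h : Algebra.Smooth A (MvPolynomial (Fin n) A) := ⟨inferInstance, inferInstance⟩
  exact Algebra.Smooth.comp R A _

theorem smooth_spec (A : Type u) [CommRing A] [Algebra k A] [h : Algebra.Smooth k A] :
    Smooth (Spec.map (CommRingCat.ofHom (algebraMap k A))) := by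
  rw [HasRingHomProperty.Spec_iff (P := @Smooth)]
  exact RingHom.smooth_algebraMap.2 h

section

variable (P : Polynomial k) (hP : P.Monic) (hd : 0 < P.natDegree) {R : Type u} [CommRing R]
  [Algebra k R] (φ : R)

include hP hd in
/-- The covering is étale over the open subset `P'(y) ≠ 0`. -/
theorem etale_piece : Algebra.Etale R (Localization.Away (AdjoinRoot.mk
    (P.map (algebraMap k R) - Polynomial.C φ) ((Polynomial.derivative P).map (algebraMap k R)))) := by
  let S : StandardEtalePair R :=
    { f := P.map (algebraMap k R) - Polynomial.C φ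
      monic_f := covPoly_monic P φ hP hd
      g := (Polynomial.derivative P).map (algebraMap k R)
      cond := ⟨1, 0, 1, by
        rw [Polynomial.derivative_sub, Polynomial.derivative_C, Polynomial.derivative_map]
        ring⟩ }
  exact Algebra.Etale.of_equiv (A := S.Ring) S.equivAwayAdjoinRoot

include hP hd in
theorem smooth_piece [Algebra.Smooth k R] : Algebra.Smooth k (Localization.Away (AdjoinRoot.mk
    (P.map (algebraMap k R) - Polynomial.C φ) ((Polynomial.derivative P).map (algebraMap k R)))) := by
  have h1 := etale_piece P hP hd φ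
  have h2 : Algebra.Smooth R (Localization.Away (AdjoinRoot.mk
    (P.map (algebraMap k R) - Polynomial.C φ) ((Polynomial.derivative P).map (algebraMap k R)))) :=
    inferInstance
  exact Algebra.Smooth.comp k R _

include hP hd in
theorem smooth_cov [Algebra.Smooth k R]
    (H : ∀ x : Spec (CommRingCat.of (Cov P φ)), AdjoinRoot.mk _ ((Polynomial.derivative P).map
      (algebraMap k R)) ∈ (show PrimeSpectrum (Cov P φ) from x).asIdeal →
      ∃ (W : Scheme.{u}) (j : W ⟶ Spec (CommRingCat.of (Cov P φ))), IsOpenImmersion j ∧
        x ∈ Set.range j ∧ Smooth (j ≫ Spec.map (CommRingCat.ofHom (algebraMap k (Cov P φ))))) :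
    Smooth (Spec.map (CommRingCat.ofHom (algebraMap k (Cov P φ)))) := by
  refine smooth_of_forall _ fun x => ?_
  by_cases hx : AdjoinRoot.mk _ ((Polynomial.derivative P).map (algebraMap k R)) ∈
      (show PrimeSpectrum (Cov P φ) from x).asIdeal
  · exact H x hx
  · set s := AdjoinRoot.mk (P.map (algebraMap k R) - Polynomial.C φ)
      ((Polynomial.derivative P).map (algebraMap k R)) with hs
    have h0 := smooth_piece P hP hd φ
    refine ⟨Spec (CommRingCat.of (Localization.Away s)),
      Spec.map (CommRingCat.ofHom (algebraMap (Cov P φ) (Localization.Away s))),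
      IsOpenImmersion.of_isLocalization s, ?_, ?_⟩
    · have h1 := PrimeSpectrum.localization_away_comap_range (Localization.Away s) s
      have h2 : x ∈ (PrimeSpectrum.basicOpen s : Set (PrimeSpectrum (Cov P φ))) := hx
      rw [← h1] at h2
      exact h2
    · have h3 : Spec.map (CommRingCat.ofHom (algebraMap (Cov P φ) (Localization.Away s))) ≫
          Spec.map (CommRingCat.ofHom (algebraMap k (Cov P φ))) =
          Spec.map (CommRingCat.ofHom (algebraMap k (Localization.Away s))) := by
        rw [← Spec.map_comp, ← CommRingCat.ofHom_comp]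
      rw [h3]
      exact smooth_spec (Localization.Away s)

end

section

variable (P : Polynomial k) (hP : P.Monic) (hd : 0 < P.natDegree) {A : Type u} [CommRing A]
  [Algebra k A] [Algebra.Smooth k A] {r : ℕ} (q : Fin (r + 1) → A)

include hP hd in
theorem smooth_covQ (hs : IsCoprime P (Polynomial.derivative P)) :
    Smooth (Spec.map (CommRingCat.ofHom (algebraMap k (CovQ P q)))) := by
  have h0 : Algebra.Smooth k (At A r) := smooth_poly k A (r + 1)
  refine smooth_cov P hP hd (phi q) fun x hx => ?_
  -- some `qᵢ` does not vanish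
  have h1 : Spec.map (CommRingCat.ofHom (strY P q)) x ∈ opU (qy q) := by
    by_contra hcon
    have h2 : ∀ i, strY P q (qy q i) ∈ (show PrimeSpectrum (CovQ P q) from x).asIdeal := by
      intro i
      by_contra h3
      exact hcon ((mem_opU (qy q) _).2 ⟨i, h3⟩)
    have h3 : (Polynomial.aeval (AdjoinRoot.root _) P : CovQ P q) ∈
        (show PrimeSpectrum (CovQ P q) from x).asIdeal := by
      rw [cov_rel, map_phi q (AdjoinRoot.of _)]
      refine Ideal.sum_mem _ fun i _ => Ideal.mul_mem_right _ _ ?_
      have h4 := h2 i
      rw [qy, strY_C] at h4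
      exact h4
    have h4 : (Polynomial.aeval (AdjoinRoot.root _) (Polynomial.derivative P) : CovQ P q) ∈
        (show PrimeSpectrum (CovQ P q) from x).asIdeal := by
      have h5 : (Polynomial.aeval (AdjoinRoot.root _) (Polynomial.derivative P) : CovQ P q) =
          AdjoinRoot.mk _ ((Polynomial.derivative P).map (algebraMap k (At A r))) := by
        rw [← AdjoinRoot.aeval_eq, Polynomial.aeval_map_algebraMap]
      rw [h5]
      exact hx
    obtain ⟨a, b, hab⟩ := hs
    have h5 := congrArg (Polynomial.aeval (AdjoinRoot.root _) : Polynomial k →ₐ[k] CovQ P q) hab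
    rw [map_add, map_mul, map_mul, map_one] at h5
    apply (show PrimeSpectrum (CovQ P q) from x).isPrime.ne_top
    rw [Ideal.eq_top_iff_one, ← h5]
    exact Ideal.add_mem _ (Ideal.mul_mem_left _ _ h3) (Ideal.mul_mem_left _ _ h4)
  obtain ⟨a, ha, -, θ, h3, h4, h5⟩ := loc_trivQ P q _ h1
  refine ⟨Spec (CommRingCat.of (MvPolynomial (Fin r) (Localization.Away a))),
    Spec.map (CommRingCat.ofHom θ), h3, ?_, ?_⟩
  · rw [h4]
    exact ha
  · have h6 : Spec.map (CommRingCat.ofHom θ) ≫
        Spec.map (CommRingCat.ofHom (algebraMap k (CovQ P q))) =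
        Spec.map (CommRingCat.ofHom (algebraMap k (MvPolynomial (Fin r)
          (Localization.Away a)))) := by
      rw [← Spec.map_comp, ← CommRingCat.ofHom_comp]
      congr 2
      rw [← strY_alg P q, ← RingHom.comp_assoc, h5]
      rfl
    rw [h6]
    have h7 : Algebra.Smooth k (Ay A) := smooth_poly k A 1
    have h8 : Algebra.Smooth k (Localization.Away a) := Algebra.Smooth.comp k (Ay A) _
    have h9 : Algebra.Smooth k (MvPolynomial (Fin r) (Localization.Away a)) :=
      smooth_poly k (Localization.Away a) r
    exact smooth_spec _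

end

end Pool.Agent.H854.AS
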