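import Pool.Agent.H854.AS.Fin

/-!
# Definitions for the statement
-/

set_option autoImplicit false

open CategoryTheory AlgebraicGeometry

universe u v w

namespace Pool.Agent.H854.AS

open Pool.Agent.Y138.UC

variable {k : Type u} [Field k]

/-- `X` is the covering `P(y) = g(x₁, …, x_M)` of an affine space, where `g` has degree at most
three. -/
def IsCubicCovering (P : Polynomial k) (X : Sch k) : Prop :=
  ∃ (M : ℕ) (g : MvPolynomial (Fin M) k), g.totalDegree ≤ 3 ∧ X = cover P g

/-- `X` is admissible and smooth over `k`. -/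
def IsSmoothAdmissible (X : Sch k) : Prop := IsAdmissible X ∧ Smooth X.hom

/-- `X` is smooth over `k`, and a covering `P(y) = g(x₁, …, x_M)` with `deg g ≤ 3`. -/
def IsSmoothCubicCovering (P : Polynomial k) (X : Sch k) : Prop :=
  IsCubicCovering P X ∧ Smooth X.hom

/-- The Tate conjecture for all schemes over `k` with the property `S`. -/
def Theory.TateFor {F : Type v} [Field F] {G : Type w} [Group G] (T : Theory.{u, v, w} k F G)
    (S : Sch k → Prop) : Prop := ∀ X, S X → T.TateConj X

/-- The polynomial `∑ tᵢ qᵢ(x)` in the variables `t₀, …, tᵣ, x₁, …, x_N`. -/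
noncomputable def cayley {N r : ℕ} (q : Fin (r + 1) → MvPolynomial (Fin N) k) :
    MvPolynomial (Fin (r + 1 + N)) k :=
  ∑ i, MvPolynomial.rename (Fin.natAdd (r + 1)) (q i) * MvPolynomial.X (Fin.castAdd N i)

theorem cayley_eq {N r : ℕ} (q : Fin (r + 1) → MvPolynomial (Fin N) k) : cayley q = cubic q := by
  rw [cubic, polyEquiv, AlgEquiv.trans_apply]
  have h1 : (MvPolynomial.sumAlgEquiv k (Fin (r + 1)) (Fin N)).symm (phi q) =
      ∑ i, MvPolynomial.rename Sum.inr (q i) * MvPolynomial.X (Sum.inl i) := by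
    have h2 := map_phi q ((MvPolynomial.sumAlgEquiv k (Fin (r + 1)) (Fin N)).symm :
      MvPolynomial (Fin (r + 1)) (MvPolynomial (Fin N) k) →+*
        MvPolynomial (Fin (r + 1) ⊕ Fin N) k)
    refine h2.trans (Finset.sum_congr rfl fun i _ => ?_)
    congr 1
    · exact sum_symm_C (q i)
    · change (MvPolynomial.sumAlgEquiv k (Fin (r + 1)) (Fin N)).symm (MvPolynomial.X i) = _
      rw [AlgEquiv.symm_apply_eq]
      simp
  rw [h1, MvPolynomial.renameEquiv_apply, map_sum, cayley]
  refine Finset.sum_congr rfl fun i _ => ?_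
  rw [map_mul, MvPolynomial.rename_rename, MvPolynomial.rename_X]
  congr 1
  

end Pool.Agent.H854.AS
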